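import Mathlib

open Filter Topology

namespace Pool.Agent.Bar

/-- The space of all parameters: `Φ i a` is the pair (ratio, translation) of the map
`φ_{i,a}`, for a direction `i : Fin d` and a symbol `a` of the alphabet `A_i = Fin (k i)`. It is
the Euclidean space of dimension `2 ∑ k i` (with its usual topology). -/
abbrev Param {d : ℕ} (k : Fin d → ℕ) : Type := (i : Fin d) → Fin (k i) → ℝ × ℝ

/-- The product alphabet `A = ∏ A_i`. -/
abbrev Alph {d : ℕ} (k : Fin d → ℕ) : Type := (i : Fin d) → Fin (k i)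

/-- The similarity `φ_{i,a} (x) = r_{i,a} x + t_{i,a}`. -/
def phi {d : ℕ} {k : Fin d → ℕ} (Φ : Param k) (i : Fin d) (a : Fin (k i)) (x : ℝ) : ℝ :=
  (Φ i a).1 * x + (Φ i a).2

/-- All the `φ_{i,a}` are contracting similarities of `[0,1]` into itself. -/
def Admissible {d : ℕ} {k : Fin d → ℕ} (Φ : Param k) : Prop :=
  ∀ (i : Fin d) (a : Fin (k i)), 0 < |(Φ i a).1| ∧ |(Φ i a).1| < 1 ∧
    Set.MapsTo (phi Φ i a) (Set.Icc 0 1) (Set.Icc 0 1)

/-- The set `𝓑` of Barański parameters. -/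
def baranski {d : ℕ} (k : Fin d → ℕ) : Set (Param k) :=
  {Φ | Admissible Φ ∧ ∀ (i : Fin d) (a b : Fin (k i)), a ≠ b →
    Disjoint (phi Φ i a '' Set.Ioo 0 1) (phi Φ i b '' Set.Ioo 0 1)}

/-- The set `𝓑_s` of strongly Barański parameters. -/
def stronglyBaranski {d : ℕ} (k : Fin d → ℕ) : Set (Param k) :=
  {Φ | Admissible Φ ∧ ∀ (i : Fin d) (a b : Fin (k i)), a ≠ b →
    Disjoint (phi Φ i a '' Set.Icc 0 1) (phi Φ i b '' Set.Icc 0 1)}

/-- The diagonal affine map `φ_𝐚` of `ℝ^d`. -/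
noncomputable def phiVec {d : ℕ} {k : Fin d → ℕ} (Φ : Param k) (a : Alph k)
    (x : EuclideanSpace ℝ (Fin d)) : EuclideanSpace ℝ (Fin d) :=
  WithLp.toLp 2 (fun i => phi Φ i (a i) (x i))

/-- The composition `φ_{ω 0} ∘ ⋯ ∘ φ_{ω (n-1)}`. -/
noncomputable def comp {d : ℕ} {k : Fin d → ℕ} (Φ : Param k) (ω : ℕ → Alph k) :
    ℕ → EuclideanSpace ℝ (Fin d) → EuclideanSpace ℝ (Fin d)
  | 0 => id
  | n + 1 => comp Φ ω n ∘ phiVec Φ (ω n)

/-- The limit set `Λ_Φ = π (E^ℕ)`, where `π ω = lim_n φ_{ω 0} ∘ ⋯ ∘ φ_{ω (n-1)} (0)`. -/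
def limitSet {d : ℕ} {k : Fin d → ℕ} (E : Set (Alph k)) (Φ : Param k) :
    Set (EuclideanSpace ℝ (Fin d)) :=
  {z | ∃ ω : ℕ → Alph k, (∀ n, ω n ∈ E) ∧ Tendsto (fun n => comp Φ ω n 0) atTop (𝓝 z)}

/-- `HD(Φ)`, the Hausdorff dimension of the limit set. -/
noncomputable def HD {d : ℕ} {k : Fin d → ℕ} (E : Set (Alph k)) (Φ : Param k) : ℝ :=
  (dimH (limitSet E Φ)).toReal

/-- `F` is real-analytic on the set `S`: each point of `S` has a neighbourhood `U` and a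
real-analytic `G` on `U` with `F = G` on `S ∩ U`. -/
def RealAnalyticOn {W : Type*} [NormedAddCommGroup W] [NormedSpace ℝ W] (F : W → ℝ)
    (S : Set W) : Prop :=
  ∀ p ∈ S, ∃ U ∈ 𝓝 p, ∃ G : W → ℝ, AnalyticOnNhd ℝ G U ∧ ∀ q ∈ S ∩ U, F q = G q

/-- `F` is piecewise real-analytic on `S`: `S` is covered by a locally finite family of
relatively closed sets, each the closure of its relative interior, with `F` real-analytic on each
of them. -/
def PiecewiseRealAnalyticOn {W : Type*} [NormedAddCommGroup W] [NormedSpace ℝ W] (F : W → ℝ)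
    (S : Set W) : Prop :=
  ∃ 𝒞 : Set (Set S), LocallyFinite (fun C : 𝒞 => (C : Set S)) ∧
    (∀ C ∈ 𝒞, IsClosed C ∧ C = closure (interior C)) ∧ ⋃₀ 𝒞 = Set.univ ∧
    ∀ C ∈ 𝒞, RealAnalyticOn F (Subtype.val '' C)

end Pool.Agent.Bar
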