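import Pool.Agent.Bar.Lower
import Pool.Agent.Bar.Defs

open MeasureTheory Filter Topology Real

namespace Pool.Agent.Bar

/-- product of ratios -/
noncomputable def R (ρ : Fin 5 → ℝ) (ω : ℕ → Fin 5) (n : ℕ) : ℝ := ∏ i ∈ Finset.range n, ρ (ω i)

/-- finite sums -/
noncomputable def Ps (ρ t : Fin 5 → ℝ) (ω : ℕ → Fin 5) (n : ℕ) : ℝ :=
  ∑ i ∈ Finset.range n, R ρ ω i * t (ω i)

/-- one-dimensional coding map -/
noncomputable def Pc (ρ t : Fin 5 → ℝ) (ω : ℕ → Fin 5) : ℝ := ∑' i, R ρ ω i * t (ω i)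

structure Ok (ρ t : Fin 5 → ℝ) (m : ℝ) : Prop where
  pos : ∀ j, 0 < ρ j
  le : ∀ j, ρ j ≤ m
  lt : m < 1
  tn : ∀ j, 0 ≤ t j
  sl : ∀ j, t j + ρ j ≤ 1

variable {ρ t : Fin 5 → ℝ} {m : ℝ}

lemma R_pos (h : Ok ρ t m) (ω : ℕ → Fin 5) (n : ℕ) : 0 < R ρ ω n :=
  Finset.prod_pos fun i _ => h.pos _

lemma R_succ (ρ : Fin 5 → ℝ) (ω : ℕ → Fin 5) (n : ℕ) : R ρ ω (n + 1) = R ρ ω n * ρ (ω n) := by
  simp [R, Finset.prod_range_succ]

lemma R_le (h : Ok ρ t m) (ω : ℕ → Fin 5) (n : ℕ) : R ρ ω n ≤ m ^ n := by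
  induction n with
  | zero => simp [R]
  | succ n ih =>
    rw [R_succ, pow_succ]
    exact mul_le_mul ih (h.le _) (h.pos _).le ((R_pos h ω n).le.trans ih)

lemma m_nonneg (h : Ok ρ t m) : 0 ≤ m := (h.pos 0).le.trans (h.le 0)

lemma summable_P (h : Ok ρ t m) (ω : ℕ → Fin 5) : Summable fun i => R ρ ω i * t (ω i) := by
  refine Summable.of_nonneg_of_le (fun i => mul_nonneg (R_pos h ω i).le (h.tn _)) (fun i => ?_)
    (summable_geometric_of_lt_one (m_nonneg h) h.lt)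
  have h1 : t (ω i) ≤ 1 := by have := h.sl (ω i); have := h.pos (ω i); linarith
  calc R ρ ω i * t (ω i) ≤ R ρ ω i * 1 := mul_le_mul_of_nonneg_left h1 (R_pos h ω i).le
    _ ≤ m ^ i := by rw [mul_one]; exact R_le h ω i

lemma R_add (ρ : Fin 5 → ℝ) (ω : ℕ → Fin 5) (n i : ℕ) :
    R ρ ω (i + n) = R ρ ω n * R ρ (fun l => ω (l + n)) i := by
  unfold R
  rw [add_comm i n, Finset.prod_range_add]
  congr 1
  refine Finset.prod_congr rfl fun l _ => by rw [add_comm]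

lemma Pc_eq (h : Ok ρ t m) (ω : ℕ → Fin 5) (n : ℕ) :
    Pc ρ t ω = Ps ρ t ω n + R ρ ω n * Pc ρ t (fun l => ω (l + n)) := by
  unfold Pc Ps
  rw [← (summable_P h ω).sum_add_tsum_nat_add n, ← tsum_mul_left]
  congr 1
  refine tsum_congr fun i => ?_
  rw [R_add]; ring

lemma Ps_add_R_le (h : Ok ρ t m) (ω : ℕ → Fin 5) (n : ℕ) : Ps ρ t ω n + R ρ ω n ≤ 1 := by
  induction n with
  | zero => simp [Ps, R]
  | succ n ih =>
    have : Ps ρ t ω (n + 1) = Ps ρ t ω n + R ρ ω n * t (ω n) := by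
      simp [Ps, Finset.sum_range_succ]
    rw [this, R_succ]
    have h1 := h.sl (ω n)
    have h2 := R_pos h ω n
    nlinarith

lemma Pc_nonneg (h : Ok ρ t m) (ω : ℕ → Fin 5) : 0 ≤ Pc ρ t ω :=
  tsum_nonneg fun i => mul_nonneg (R_pos h ω i).le (h.tn _)

lemma Pc_le_one (h : Ok ρ t m) (ω : ℕ → Fin 5) : Pc ρ t ω ≤ 1 := by
  refine (summable_P h ω).tsum_le_of_sum_range_le fun n => ?_
  have := Ps_add_R_le h ω n
  have := R_pos h ω n
  unfold Ps at *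
  linarith

lemma tendsto_Ps (h : Ok ρ t m) (ω : ℕ → Fin 5) :
    Tendsto (Ps ρ t ω) atTop (𝓝 (Pc ρ t ω)) :=
  (summable_P h ω).hasSum.tendsto_sum_nat

lemma measurable_Pc (h : Ok ρ t m) : Measurable (Pc ρ t) := by
  have h1 : ∀ n, Measurable (fun ω : ℕ → Fin 5 => Ps ρ t ω n) := by
    intro n
    unfold Ps R
    refine Finset.measurable_sum _ fun i _ => Measurable.mul ?_ ?_
    · exact Finset.measurable_prod _ fun l _ =>
        (measurable_of_finite ρ).comp (measurable_pi_apply l)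
    · exact (measurable_of_finite t).comp (measurable_pi_apply i)
  refine measurable_of_tendsto_metrizable h1 ?_
  rw [tendsto_pi_nhds]
  exact fun ω => tendsto_Ps h ω

lemma Pc_head (h : Ok ρ t m) (ω : ℕ → Fin 5) :
    t (ω 0) ≤ Pc ρ t ω ∧ Pc ρ t ω ≤ t (ω 0) + ρ (ω 0) := by
  have h1 := Pc_eq h ω 1
  have h2 : Ps ρ t ω 1 = t (ω 0) := by simp [Ps, R]
  have h3 : R ρ ω 1 = ρ (ω 0) := by simp [R]
  rw [h2, h3] at h1
  have h4 := Pc_nonneg h (fun l => ω (l + 1))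
  have h5 := Pc_le_one h (fun l => ω (l + 1))
  have h6 := h.pos (ω 0)
  constructor
  · rw [h1]; nlinarith
  · rw [h1]; nlinarith

lemma agree_R {ω ω' : ℕ → Fin 5} {n : ℕ} (h1 : ∀ i < n, ρ (ω' i) = ρ (ω i)) {l : ℕ} (hl : l ≤ n) :
    R ρ ω' l = R ρ ω l :=
  Finset.prod_congr rfl fun i hi => h1 i (lt_of_lt_of_le (Finset.mem_range.1 hi) hl)

lemma agree_Ps {ω ω' : ℕ → Fin 5} {n : ℕ} (h1 : ∀ i < n, ρ (ω' i) = ρ (ω i))
    (h2 : ∀ i < n, t (ω' i) = t (ω i)) : Ps ρ t ω' n = Ps ρ t ω n :=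
  Finset.sum_congr rfl fun i hi => by
    rw [agree_R h1 (Finset.mem_range.1 hi).le, h2 i (Finset.mem_range.1 hi)]

lemma Pc_close (h : Ok ρ t m) {ω ω' : ℕ → Fin 5} {n : ℕ} (h1 : ∀ i < n, ρ (ω' i) = ρ (ω i))
    (h2 : ∀ i < n, t (ω' i) = t (ω i)) : |Pc ρ t ω - Pc ρ t ω'| ≤ R ρ ω n := by
  rw [Pc_eq h ω n, Pc_eq h ω' n, agree_Ps h1 h2, agree_R h1 le_rfl]
  have h3 := Pc_nonneg h (fun l => ω (l + n))
  have h4 := Pc_le_one h (fun l => ω (l + n))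
  have h5 := Pc_nonneg h (fun l => ω' (l + n))
  have h6 := Pc_le_one h (fun l => ω' (l + n))
  have h7 := R_pos h ω n
  rw [abs_le]
  constructor <;> nlinarith

lemma Pc_far (h : Ok ρ t m) {ω ω' : ℕ → Fin 5} {n : ℕ} (h1 : ∀ i < n, ρ (ω' i) = ρ (ω i))
    (h2 : ∀ i < n, t (ω' i) = t (ω i)) {g : ℝ}
    (h3 : t (ω n) + ρ (ω n) + g ≤ t (ω' n) ∨ t (ω' n) + ρ (ω' n) + g ≤ t (ω n)) :
    g * R ρ ω n ≤ |Pc ρ t ω - Pc ρ t ω'| := by
  rw [Pc_eq h ω n, Pc_eq h ω' n, agree_Ps h1 h2, agree_R h1 le_rfl]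
  have h4 := Pc_head h (fun l => ω (l + n))
  have h5 := Pc_head h (fun l => ω' (l + n))
  simp only [zero_add] at h4 h5
  have h7 := R_pos h ω n
  set a := Pc ρ t (fun l => ω (l + n))
  set b := Pc ρ t (fun l => ω' (l + n))
  have h8 : Ps ρ t ω n + R ρ ω n * a - (Ps ρ t ω n + R ρ ω n * b) = R ρ ω n * (a - b) := by ring
  rw [h8, abs_mul, abs_of_pos h7, mul_comm]
  apply mul_le_mul_of_nonneg_left _ h7.le
  rcases h3 with h3 | h3
  · rw [abs_sub_comm]; exact le_trans (by linarith) (le_abs_self _)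
  · exact le_trans (by linarith) (le_abs_self _)

/-! ### The example -/

/-- translations in direction 0 -/
noncomputable def t0 (j : Fin 5) : ℝ := if j = 0 then 0 else 1 / 2

/-- translations in direction 1 -/
noncomputable def t1 (j : Fin 5) : ℝ := (j : ℕ) / 5

noncomputable def ρ0 (α : ℝ) (_ : Fin 5) : ℝ := exp (-α)

noncomputable def ρ1 (β γ : ℝ) (j : Fin 5) : ℝ := if j = 0 then exp (-γ) else exp (-β)

lemma R0 (α : ℝ) (ω : ℕ → Fin 5) (n : ℕ) : R (ρ0 α) ω n = exp (-(α * n)) := by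
  unfold R ρ0
  rw [Finset.prod_const, Finset.card_range, ← exp_nat_mul]; congr 1; ring

lemma R1 (β γ : ℝ) (ω : ℕ → Fin 5) (n : ℕ) : R (ρ1 β γ) ω n = exp (-(V β γ ω n)) := by
  induction n with
  | zero => simp [R, V_zero]
  | succ n ih =>
    rw [R_succ, ih, V_succ]
    unfold ρ1 T
    split_ifs
    · rw [← exp_add]; congr 1; push_cast; ring
    · rw [← exp_add]; congr 1; push_cast; ring

lemma ok0 {α : ℝ} (h : exp (-α) < 1 / 2) : Ok (ρ0 α) t0 (exp (-α)) where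
  pos _ := exp_pos _
  le _ := le_rfl
  lt := by linarith
  tn j := by unfold t0; split_ifs <;> norm_num
  sl j := by unfold t0 ρ0; split_ifs <;> linarith

lemma t1_le (j : Fin 5) : t1 j ≤ 4 / 5 := by
  unfold t1
  have : ((j : ℕ) : ℝ) ≤ 4 := by exact_mod_cast Nat.lt_succ_iff.1 j.2
  linarith

lemma ok1 {β γ : ℝ} (h2 : β ≤ γ) (h : exp (-β) < 1 / 5) : Ok (ρ1 β γ) t1 (exp (-β)) where
  pos j := by unfold ρ1; split_ifs <;> exact exp_pos _
  le j := by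
    unfold ρ1; split_ifs
    · exact exp_le_exp.2 (by linarith)
    · exact le_rfl
  lt := by linarith
  tn j := by unfold t1; positivity
  sl j := by
    have h3 := t1_le j
    have h4 : exp (-γ) ≤ exp (-β) := exp_le_exp.2 (by linarith)
    unfold ρ1; split_ifs <;> linarith

/-- the coding map of the example -/
noncomputable def Pi2 (α β γ : ℝ) (ω : ℕ → Fin 5) : EuclideanSpace ℝ (Fin 2) :=
  WithLp.toLp 2 ![Pc (ρ0 α) t0 ω, Pc (ρ1 β γ) t1 ω]

variable {α β γ : ℝ}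

lemma dist_le (ω ω' : ℕ → Fin 5) : dist (Pi2 α β γ ω) (Pi2 α β γ ω') ≤
    |Pc (ρ0 α) t0 ω - Pc (ρ0 α) t0 ω'| + |Pc (ρ1 β γ) t1 ω - Pc (ρ1 β γ) t1 ω'| := by
  rw [EuclideanSpace.dist_eq, Fin.sum_univ_two]
  simp only [Pi2, Matrix.cons_val_zero, Matrix.cons_val_one, Real.dist_eq]
  rw [Real.sqrt_le_left (by positivity)]
  nlinarith [abs_nonneg (Pc (ρ0 α) t0 ω - Pc (ρ0 α) t0 ω'),
    abs_nonneg (Pc (ρ1 β γ) t1 ω - Pc (ρ1 β γ) t1 ω'),
    mul_nonneg (abs_nonneg (Pc (ρ0 α) t0 ω - Pc (ρ0 α) t0 ω'))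
    (abs_nonneg (Pc (ρ1 β γ) t1 ω - Pc (ρ1 β γ) t1 ω'))]

lemma le_dist0 (ω ω' : ℕ → Fin 5) :
    |Pc (ρ0 α) t0 ω - Pc (ρ0 α) t0 ω'| ≤ dist (Pi2 α β γ ω) (Pi2 α β γ ω') := by
  rw [EuclideanSpace.dist_eq, Fin.sum_univ_two]
  simp only [Pi2, Matrix.cons_val_zero, Matrix.cons_val_one, Real.dist_eq]
  apply Real.le_sqrt_of_sq_le
  nlinarith [sq_nonneg (|Pc (ρ1 β γ) t1 ω - Pc (ρ1 β γ) t1 ω'|)]

lemma le_dist1 (ω ω' : ℕ → Fin 5) :
    |Pc (ρ1 β γ) t1 ω - Pc (ρ1 β γ) t1 ω'| ≤ dist (Pi2 α β γ ω) (Pi2 α β γ ω') := by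
  rw [EuclideanSpace.dist_eq, Fin.sum_univ_two]
  simp only [Pi2, Matrix.cons_val_zero, Matrix.cons_val_one, Real.dist_eq]
  apply Real.le_sqrt_of_sq_le
  nlinarith [sq_nonneg (|Pc (ρ0 α) t0 ω - Pc (ρ0 α) t0 ω'|)]

lemma t0_eq_of_T {a b : Fin 5} (h : T a = T b) : t0 a = t0 b := by
  rw [T_eq_iff] at h
  unfold t0
  simp only [h]

lemma upper_est (ha : 0 < α) (h1 : α ≤ β) (h2 : β ≤ γ) (hr : exp (-α) < 1 / 2)
    (hb : exp (-β) < 1 / 5) (ω ω' : ℕ → Fin 5) (n : ℕ) (h : ω' ∈ B α β γ ω n) :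
    edist (Pi2 α β γ ω) (Pi2 α β γ ω') ≤ ENNReal.ofReal ((1 + exp γ) * exp (-(α * n))) := by
  rw [edist_dist]
  apply ENNReal.ofReal_le_ofReal
  refine (dist_le ω ω').trans ?_
  obtain ⟨hT, hE⟩ := (lab_eq_iff ha h1 h2 ω ω' n).1 h
  have e1 := Pc_close (ok0 hr) (ω := ω) (ω' := ω') (n := n) (fun i _ => rfl)
    (fun i hi => t0_eq_of_T (hT i hi))
  have e2 := Pc_close (ok1 h2 hb) (ω := ω) (ω' := ω') (n := ell α β γ ω n)
    (fun i hi => by rw [hE i hi]) (fun i hi => by rw [hE i hi])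
  rw [R0] at e1
  rw [R1] at e2
  have h3 := lt_V_ell_succ ha h1 h2 ω n
  have h4 := V_succ_le h2 ω (ell α β γ ω n)
  have h5 : exp (-(V β γ ω (ell α β γ ω n))) ≤ exp γ * exp (-(α * n)) := by
    rw [← exp_add]; apply exp_le_exp.2; linarith
  linarith

lemma lower_est (ha : 0 < α) (h1 : α ≤ β) (h2 : β ≤ γ) (hr : exp (-α) < 1 / 2)
    (hb : exp (-β) < 1 / 5) (ω ω' : ℕ → Fin 5) (n : ℕ)
    (h : edist (Pi2 α β γ ω) (Pi2 α β γ ω') <
      ENNReal.ofReal (min (1 / 2 - exp (-α)) (1 / 5 - exp (-β)) * exp (-(α * n)))) :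
    ω' ∈ B α β γ ω n := by
  set g := min (1 / 2 - exp (-α)) (1 / 5 - exp (-β)) with hg
  have hg0 : 0 < g := lt_min (by linarith) (by linarith)
  have hgl : g ≤ 1 / 2 - exp (-α) := min_le_left _ _
  have hgr : g ≤ 1 / 5 - exp (-β) := min_le_right _ _
  rw [edist_dist, ENNReal.ofReal_lt_ofReal_iff_of_nonneg dist_nonneg] at h
  have hd0 := lt_of_le_of_lt (le_dist0 ω ω') h
  have hd1 := lt_of_le_of_lt (le_dist1 ω ω') h
  refine (lab_eq_iff ha h1 h2 ω ω' n).2 ⟨?_, ?_⟩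
  · by_contra hcon
    push Not at hcon
    have hex : ∃ i, i < n ∧ T (ω' i) ≠ T (ω i) := hcon
    classical
    set i := Nat.find hex with hi
    obtain ⟨hin, hne⟩ := Nat.find_spec hex
    have hmin : ∀ l < i, T (ω' l) = T (ω l) := by
      intro l hl
      by_contra hl'
      exact Nat.find_min hex hl ⟨lt_trans hl hin, hl'⟩
    have hsep : t0 (ω i) + ρ0 α (ω i) + g ≤ t0 (ω' i) ∨
        t0 (ω' i) + ρ0 α (ω' i) + g ≤ t0 (ω i) := by
      have hne' : ¬ (ω' i = 0 ↔ ω i = 0) := fun hh => hne ((T_eq_iff _ _).2 hh)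
      unfold t0 ρ0
      by_cases h3 : ω i = 0
      · have h4 : ω' i ≠ 0 := fun h4 => hne' ⟨fun _ => h3, fun _ => h4⟩
        left
        rw [if_pos h3, if_neg h4]; linarith
      · have h4 : ω' i = 0 := by
          by_contra h4
          exact hne' ⟨fun h5 => absurd h5 h4, fun h5 => absurd h5 h3⟩
        right
        rw [if_pos h4, if_neg h3]; linarith
    have h5 := Pc_far (ok0 hr) (ω := ω) (ω' := ω') (n := i) (fun _ _ => rfl)
      (fun l hl => t0_eq_of_T (hmin l hl)) hsep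
    rw [R0] at h5
    have h6 : exp (-(α * n)) ≤ exp (-(α * i)) := by
      apply exp_le_exp.2
      have : (i:ℝ) ≤ n := by exact_mod_cast hin.le
      nlinarith
    have h7 : g * exp (-(α * n)) ≤ g * exp (-(α * i)) := mul_le_mul_of_nonneg_left h6 hg0.le
    linarith
  · by_contra hcon
    push Not at hcon
    have hex : ∃ i, i < ell α β γ ω n ∧ ω' i ≠ ω i := hcon
    classical
    set i := Nat.find hex with hi
    obtain ⟨hin, hne⟩ := Nat.find_spec hex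
    have hmin : ∀ l < i, ω' l = ω l := by
      intro l hl
      by_contra hl'
      exact Nat.find_min hex hl ⟨lt_trans hl hin, hl'⟩
    have hsep : t1 (ω i) + ρ1 β γ (ω i) + g ≤ t1 (ω' i) ∨
        t1 (ω' i) + ρ1 β γ (ω' i) + g ≤ t1 (ω i) := by
      have hρ := (ok1 h2 hb).le
      have h3 := hρ (ω i)
      have h4 := hρ (ω' i)
      have hne' : ((ω' i : ℕ)) ≠ (ω i : ℕ) := fun hh => hne (Fin.ext hh)
      unfold t1
      rcases lt_or_gt_of_ne hne' with h5 | h5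
      · right
        have : ((ω' i : ℕ) : ℝ) + 1 ≤ (ω i : ℕ) := by exact_mod_cast h5
        linarith
      · left
        have : ((ω i : ℕ) : ℝ) + 1 ≤ (ω' i : ℕ) := by exact_mod_cast h5
        linarith
    have h5 := Pc_far (ok1 h2 hb) (ω := ω) (ω' := ω') (n := i)
      (fun l hl => by rw [hmin l hl]) (fun l hl => by rw [hmin l hl]) hsep
    rw [R1] at h5
    have h6 : exp (-(α * n)) ≤ exp (-(V β γ ω i)) := by
      apply exp_le_exp.2
      have h7 := (lt_ell_iff ha h1 h2 ω n i).1 hin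
      have h8 := V_mono (by linarith) h2 ω (Nat.le_succ i)
      simp only [Nat.succ_eq_add_one] at h8
      linarith
    have h7 : g * exp (-(α * n)) ≤ g * exp (-(V β γ ω i)) := mul_le_mul_of_nonneg_left h6 hg0.le
    linarith

lemma measurable_Pi2 (h2 : β ≤ γ) (hr : exp (-α) < 1 / 2)
    (hb : exp (-β) < 1 / 5) : Measurable (Pi2 α β γ) := by
  unfold Pi2
  have h3 : Measurable (fun ω : ℕ → Fin 5 => (![Pc (ρ0 α) t0 ω, Pc (ρ1 β γ) t1 ω] : Fin 2 → ℝ)) := by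
    rw [measurable_pi_iff]
    intro i
    fin_cases i
    · exact measurable_Pc (ok0 hr)
    · exact measurable_Pc (ok1 h2 hb)
  exact (WithLp.measurable_toLp 2 _).comp h3

end Pool.Agent.Bar
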