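import Pool.Agent.Bar.Link

open MeasureTheory Filter Topology Real

namespace Pool.Agent.Bar

/-- the root `z` of the transcendental equation -/
lemma exists_root : ∃ z : ℝ, 1 / 9 ≤ z ∧ z ≤ 1 / 7 ∧
    log (1 - z) - log z = 3 / (2 * (1 - 2 * z)) := by
  let f : ℝ → ℝ := fun x => (log (1 - x) - log x) * (2 * (1 - 2 * x)) - 3
  have hcont : ContinuousOn f (Set.Icc (1 / 9) (1 / 7)) := by
    apply ContinuousOn.sub _ continuousOn_const
    apply ContinuousOn.mul _ (by fun_prop)
    apply ContinuousOn.sub
    · apply ContinuousOn.log (by fun_prop)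
      intro x hx
      have := hx.2
      have : 0 < 1 - x := by linarith
      exact this.ne'
    · apply ContinuousOn.log (by fun_prop)
      intro x hx
      have := hx.1
      have : 0 < x := by linarith
      exact this.ne'
  have hl2 := Real.log_two_gt_d9
  have hl2' := Real.log_two_lt_d9
  have h8 : log 8 = 3 * log 2 := by
    rw [show (8:ℝ) = 2 ^ 3 by norm_num, log_pow]; norm_num
  have h1 : 0 ≤ f (1 / 9) := by
    have : log (1 - 1 / 9) - log (1 / 9) = log 8 := by
      rw [← log_div (by norm_num) (by norm_num)]; norm_num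
    simp only [f, this, h8]
    linarith
  have h2 : f (1 / 7) ≤ 0 := by
    have : log (1 - 1 / 7) - log (1 / 7) = log 6 := by
      rw [← log_div (by norm_num) (by norm_num)]; norm_num
    have h6 : log 6 ≤ log 8 := log_le_log (by norm_num) (by norm_num)
    simp only [f, this]
    rw [h8] at h6
    linarith
  obtain ⟨z, hz, hfz⟩ := intermediate_value_Icc' (by norm_num) hcont (Set.mem_Icc.2 ⟨h2, h1⟩)
  refine ⟨z, hz.1, hz.2, ?_⟩
  have h3 : 0 < 1 - 2 * z := by have := hz.2; linarith
  rw [eq_div_iff (by positivity)]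
  simp only [f] at hfz
  linarith

/-- the constants -/
noncomputable def vv (z : ℝ) : ℝ := (1 - 2 * z) / (z * (2 - z))
noncomputable def cc (z : ℝ) : ℝ := 27 * z * (1 - z) / (2 * (2 - z) * (1 - 2 * z) * (1 + z))

noncomputable def f0 (z x : ℝ) : ℝ := binEntropy x + cc z * ((1 - x) / (1 + vv z * x))
noncomputable def f1 (z x : ℝ) : ℝ :=
  log (1 - x) - log x - cc z * (1 + vv z) / (1 + vv z * x) ^ 2
noncomputable def f2 (z x : ℝ) : ℝ :=
  -1 / (1 - x) - 1 / x + 2 * cc z * vv z * (1 + vv z) / (1 + vv z * x) ^ 3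

section
variable {z : ℝ} (hz : 1 / 9 ≤ z) (hz' : z ≤ 1 / 7)
include hz hz'

lemma vv_pos : 0 < vv z := by
  unfold vv
  have : 0 < 1 - 2 * z := by linarith
  have : 0 < 2 - z := by linarith
  have : 0 < z := by linarith
  positivity

lemma cc_pos : 0 < cc z := by
  unfold cc
  have : 0 < 1 - 2 * z := by linarith
  have : 0 < 2 - z := by linarith
  have : 0 < 1 - z := by linarith
  have : 0 < z := by linarith
  positivity

lemma cc_le : cc z ≤ 6 / 5 := by
  unfold cc
  have h1 : 5 / 7 ≤ 1 - 2 * z := by linarith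
  have h2 : 0 < 2 - z := by linarith
  have h3 : 0 < 1 - z := by linarith
  have h4 : 0 < z := by linarith
  have h5 : 2 ≤ (2 - z) * (1 + z) := by nlinarith
  have h6 : 20 / 7 ≤ 2 * (2 - z) * (1 - 2 * z) * (1 + z) := by
    have : 2 * (2 - z) * (1 - 2 * z) * (1 + z) = 2 * ((2 - z) * (1 + z)) * (1 - 2 * z) := by ring
    rw [this]
    nlinarith
  have h7 : 27 * z * (1 - z) ≤ 27 * (6 / 49) := by nlinarith
  rw [div_le_iff₀ (by linarith)]
  nlinarith

lemma den_pos' {x : ℝ} (hx : 0 ≤ x) : 0 < 1 + vv z * x := by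
  have := vv_pos hz hz'
  positivity

lemma hasDeriv0 {x : ℝ} (hx : 0 < x) (hx1 : x < 1) : HasDerivAt (f0 z) (f1 z x) x := by
  have h1 := hasDerivAt_binEntropy hx.ne' hx1.ne
  have hd := den_pos' hz hz' hx.le
  have h2 : HasDerivAt (fun x : ℝ => (1 - x) / (1 + vv z * x))
      (((-1) * (1 + vv z * x) - (1 - x) * (vv z)) / (1 + vv z * x) ^ 2) x := by
    have h3 : HasDerivAt (fun x : ℝ => 1 - x) (-1) x := by
      simpa using (hasDerivAt_id x).const_sub 1
    have h4 : HasDerivAt (fun x : ℝ => 1 + vv z * x) (vv z) x := by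
      simpa using ((hasDerivAt_id x).const_mul (vv z)).const_add 1
    exact h3.div h4 hd.ne'
  have h5 := h1.add (h2.const_mul (cc z))
  refine h5.congr_deriv ?_
  unfold f1
  field_simp
  ring

lemma hasDeriv1 {x : ℝ} (hx : 0 < x) (hx1 : x < 1) : HasDerivAt (f1 z) (f2 z x) x := by
  have hd := den_pos' hz hz' hx.le
  have hx1' : 1 - x ≠ 0 := by have : 0 < 1 - x := by linarith
                              exact this.ne'
  have h3 : HasDerivAt (fun x : ℝ => 1 - x) (-1) x := by
    simpa using (hasDerivAt_id x).const_sub 1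
  have h4 : HasDerivAt (fun x : ℝ => 1 + vv z * x) (vv z) x := by
    simpa using ((hasDerivAt_id x).const_mul (vv z)).const_add 1
  have h5 := h3.log hx1'
  have h6 := Real.hasDerivAt_log hx.ne'
  have h7 := (h4.pow 2).fun_inv (pow_ne_zero 2 hd.ne')
  have h8 := (h5.sub h6).sub (h7.const_mul (cc z * (1 + vv z)))
  have e : f1 z = fun x => (log (1 - x) - log x) - cc z * (1 + vv z) * ((1 + vv z * x) ^ 2)⁻¹ := by
    funext x; unfold f1; rw [div_eq_mul_inv]
  rw [e]
  refine h8.congr_deriv ?_
  unfold f2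
  simp only [Pi.pow_apply, Nat.cast_ofNat]
  have hd' := hd.ne'
  generalize 1 + vv z * x = u at hd'
  field_simp
  ring

lemma P_identity (x : ℝ) : (1 + vv z * x) ^ 3 - 2 * cc z * vv z * (1 + vv z) * (x * (1 - x)) =
    (x - z) ^ 2 * (vv z ^ 3 * x + 1 / z ^ 2) := by
  unfold vv cc
  have h1 : 1 - 2 * z ≠ 0 := by have : 0 < 1 - 2 * z := by linarith
                                exact this.ne'
  have h2 : 2 - z ≠ 0 := by have : 0 < 2 - z := by linarith
                            exact this.ne'
  have h4 : z ≠ 0 := by have : 0 < z := by linarith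
                        exact this.ne'
  have h5 : 1 + z ≠ 0 := by have : 0 < 1 + z := by linarith
                            exact this.ne'
  field_simp
  ring

lemma f2_eq {x : ℝ} (hx : 0 < x) (hx1 : x < 1) : f2 z x =
    -((x - z) ^ 2 * (vv z ^ 3 * x + 1 / z ^ 2) / ((1 + vv z * x) ^ 3 * (x * (1 - x)))) := by
  have hd := (den_pos' hz hz' hx.le).ne'
  have hx1' : 1 - x ≠ 0 := by have : 0 < 1 - x := by linarith
                              exact this.ne'
  rw [← P_identity hz hz' x]
  unfold f2
  generalize 1 + vv z * x = u at hd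
  field_simp
  ring

lemma f2_neg {x : ℝ} (hx : 0 < x) (hx1 : x < 1) (hne : x ≠ z) : f2 z x < 0 := by
  rw [f2_eq hz hz' hx hx1]
  have hd := den_pos' hz hz' hx.le
  have hv := vv_pos hz hz'
  have h1 : 0 < 1 - x := by linarith
  have h2 : 0 < (x - z) ^ 2 := by
    have : x - z ≠ 0 := sub_ne_zero.2 hne
    positivity
  have h3 : 0 < z := by linarith
  have : 0 < (x - z) ^ 2 * (vv z ^ 3 * x + 1 / z ^ 2) / ((1 + vv z * x) ^ 3 * (x * (1 - x))) := by
    positivity
  linarith

lemma f1_z (hroot : log (1 - z) - log z = 3 / (2 * (1 - 2 * z))) : f1 z z = 0 := by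
  unfold f1
  rw [hroot]
  unfold cc vv
  have h1 : 1 - 2 * z ≠ 0 := by have : 0 < 1 - 2 * z := by linarith
                                exact this.ne'
  have h2 : 2 - z ≠ 0 := by have : 0 < 2 - z := by linarith
                            exact this.ne'
  have h4 : z ≠ 0 := by have : 0 < z := by linarith
                        exact this.ne'
  have h5 : 1 + z ≠ 0 := by have : 0 < 1 + z := by linarith
                            exact this.ne'
  have h6 : 1 - z ≠ 0 := by have : 0 < 1 - z := by linarith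
                            exact this.ne'
  have h7 : 1 + (1 - 2 * z) / (z * (2 - z)) * z = 3 * (1 - z) / (2 - z) := by
    field_simp; ring
  have h8 : 1 + (1 - 2 * z) / (z * (2 - z)) = (1 - z) * (1 + z) / (z * (2 - z)) := by
    field_simp; ring
  rw [h7, h8]
  field_simp
  ring

end

end Pool.Agent.Bar
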