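import Pool.Agent.Bar.Shape

open MeasureTheory Filter Topology Real

namespace Pool.Agent.Bar

lemma taylor {A : ℝ → ℝ} (h : AnalyticAt ℝ A 0) :
    ∃ L K : ℝ, ∀ᶠ s in 𝓝 (0:ℝ), |A s - A 0 - L * s| ≤ K * s ^ 2 := by
  obtain ⟨p, hp⟩ := h
  obtain ⟨K, hK⟩ := (hp.isBigO_sub_partialSum_pow 2).bound
  refine ⟨p.coeff 1, K, ?_⟩
  filter_upwards [hK] with s hs
  have h0 : p.partialSum 2 s = A 0 + p.coeff 1 * s := by
    rw [FormalMultilinearSeries.partialSum, Finset.sum_range_succ, Finset.sum_range_one,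
      hp.coeff_zero, FormalMultilinearSeries.apply_eq_pow_smul_coeff]
    simp [mul_comm]
  rw [h0, zero_add, Real.norm_eq_abs, Real.norm_eq_abs] at hs
  have h1 : |(|s| ^ 2)| = s ^ 2 := by rw [sq_abs, abs_of_nonneg (sq_nonneg s)]
  rw [Real.norm_eq_abs, h1] at hs
  have h2 : A s - (A 0 + p.coeff 1 * s) = A s - A 0 - p.coeff 1 * s := by ring
  rwa [h2] at hs

/-- A function with a `s^{4/3}` cusp does not agree frequently with an analytic function. -/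
lemma no_analytic {M : ℝ → ℝ} {g c t1 : ℝ} (hc : 0 < c) (ht1 : 0 < t1)
    (hlow : ∀ t, 0 < t → t < t1 → M 0 + t ^ 3 * g + c * t ^ 4 ≤ M (t ^ 3))
    (hup : ∀ η : ℝ, 0 < η → ∃ δ : ℝ, 0 < δ ∧ ∀ s, 0 < s → s < δ → M s ≤ M 0 + s * (g + η))
    {A : ℝ → ℝ} (hA : AnalyticAt ℝ A 0) (hA0 : M 0 = A 0)
    (hfreq : ∃ᶠ s in 𝓝[>] (0:ℝ), M s = A s) : False := by
  obtain ⟨L, K, hLK⟩ := taylor hA
  have hLK' : ∀ᶠ s in 𝓝[>] (0:ℝ), |A s - A 0 - L * s| ≤ K * s ^ 2 :=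
    hLK.filter_mono nhdsWithin_le_nhds
  have hpos : ∀ᶠ s in 𝓝[>] (0:ℝ), 0 < s := eventually_mem_nhdsWithin
  have hlt : ∀ δ : ℝ, 0 < δ → ∀ᶠ s in 𝓝[>] (0:ℝ), s < δ := fun δ hδ =>
    (gt_mem_nhds hδ).filter_mono nhdsWithin_le_nhds
  -- `L ≤ g`
  have hL : L ≤ g := by
    apply le_of_forall_pos_le_add
    intro η hη
    obtain ⟨δ, hδ, hM⟩ := hup (η / 2) (by linarith)
    have hK1 : 0 < |K| + 1 := by positivity
    obtain ⟨s, h1, h2, h3, h4, h5⟩ := (hfreq.and_eventually (hLK'.and (hpos.and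
      ((hlt δ hδ).and (hlt (η / 2 / (|K| + 1)) (by positivity)))))).exists
    have h6 := hM s h3 h4
    rw [lt_div_iff₀ hK1] at h5
    have h7 := (abs_le.1 h2).1
    rw [← h1, ← hA0] at h7
    have h8 : K * s ^ 2 ≤ |K| * s ^ 2 := by gcongr; exact le_abs_self K
    have h9 : |K| * s ≤ η / 2 := by nlinarith [abs_nonneg K]
    have h10 : |K| * s ^ 2 ≤ η / 2 * s := by nlinarith
    have h11 : L * s ≤ (g + η) * s := by nlinarith
    exact le_of_mul_le_mul_right h11 h3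
  -- contradiction
  have hK1 : 0 < |K| + 1 := by positivity
  set τ : ℝ := min t1 (min 1 (c / (|K| + 1))) with hτ
  have hτ0 : 0 < τ := lt_min ht1 (lt_min one_pos (by positivity))
  obtain ⟨s, h1, h2, h3, h4⟩ := (hfreq.and_eventually (hLK'.and (hpos.and
      (hlt (τ ^ 3) (by positivity))))).exists
  set t : ℝ := s ^ ((1:ℝ) / 3) with ht
  have ht0 : 0 < t := Real.rpow_pos_of_pos h3 _
  have hts : t ^ 3 = s := by
    rw [ht, ← Real.rpow_natCast, ← Real.rpow_mul h3.le]; norm_num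
  have htτ : t < τ := by
    rw [← hts] at h4
    exact lt_of_pow_lt_pow_left₀ 3 hτ0.le h4
  have ht1' : t < t1 := lt_of_lt_of_le htτ (min_le_left _ _)
  have ht2 : t < 1 := lt_of_lt_of_le htτ ((min_le_right _ _).trans (min_le_left _ _))
  have ht3 : t < c / (|K| + 1) := lt_of_lt_of_le htτ ((min_le_right _ _).trans (min_le_right _ _))
  rw [lt_div_iff₀ hK1] at ht3
  have h5 := hlow t ht0 ht1'
  rw [hts] at h5
  have h7 := (abs_le.1 h2).2
  rw [← h1, ← hA0] at h7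
  have h8 : K * s ^ 2 ≤ |K| * s ^ 2 := by gcongr; exact le_abs_self K
  have h9 : L * s ≤ g * s := mul_le_mul_of_nonneg_right hL h3.le
  have h10 : c * t ^ 4 ≤ |K| * s ^ 2 := by linarith
  rw [← hts] at h10
  have h11 : c * t ^ 4 ≤ (|K| * t ^ 2) * t ^ 4 := by
    calc c * t ^ 4 ≤ |K| * (t ^ 3) ^ 2 := h10
      _ = (|K| * t ^ 2) * t ^ 4 := by ring
  have h12 : c ≤ |K| * t ^ 2 := le_of_mul_le_mul_right h11 (by positivity)
  have h13 : |K| * t ^ 2 ≤ |K| * t := by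
    have := abs_nonneg K
    have h14 : t ^ 2 ≤ t := by nlinarith
    gcongr
  nlinarith [abs_nonneg K]

/-- Piecewise analyticity fails along an analytic curve on which the function has a cusp. -/
lemma not_piecewise {W : Type*} [NormedAddCommGroup W] [NormedSpace ℝ W] {F : W → ℝ} {S : Set W}
    {γc : ℝ → W} {s1 : ℝ} (hs1 : 0 < s1) (hγS : ∀ s, 0 ≤ s → s < s1 → γc s ∈ S)
    (hγA : AnalyticAt ℝ γc 0) {g c t1 : ℝ} (hc : 0 < c) (ht1 : 0 < t1)
    (hlow : ∀ t, 0 < t → t < t1 → (2 + 0) * F (γc 0) + t ^ 3 * g + c * t ^ 4 ≤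
      (2 + t ^ 3) * F (γc (t ^ 3)))
    (hup : ∀ η : ℝ, 0 < η → ∃ δ : ℝ, 0 < δ ∧ ∀ s, 0 < s → s < δ →
      (2 + s) * F (γc s) ≤ (2 + 0) * F (γc 0) + s * (g + η)) :
    ¬ PiecewiseRealAnalyticOn F S := by
  rintro ⟨𝒞, hlf, hcl, hcov, han⟩
  have h00 : γc 0 ∈ S := hγS 0 le_rfl hs1
  obtain ⟨V, hV, hfin⟩ := hlf ⟨γc 0, h00⟩
  rw [mem_nhds_subtype] at hV
  obtain ⟨V', hV', hsub⟩ := hV
  have hcont : Tendsto γc (𝓝[>] 0) (𝓝 (γc 0)) :=
    hγA.continuousAt.tendsto.mono_left nhdsWithin_le_nhds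
  have hev : ∀ᶠ s in 𝓝[>] (0:ℝ), γc s ∈ V' := hcont.eventually hV'
  have hpos : ∀ᶠ s in 𝓝[>] (0:ℝ), 0 < s := eventually_mem_nhdsWithin
  have hlt : ∀ᶠ s in 𝓝[>] (0:ℝ), s < s1 := (gt_mem_nhds hs1).filter_mono nhdsWithin_le_nhds
  have hex : ∃ C : 𝒞, ∃ᶠ s in 𝓝[>] (0:ℝ), γc s ∈ Subtype.val '' (C : Set S) := by
    by_contra hcon
    push Not at hcon
    have hall : ∀ᶠ s in 𝓝[>] (0:ℝ), ∀ C ∈ {C : 𝒞 | ((C : Set S) ∩ V).Nonempty},
        ¬ γc s ∈ Subtype.val '' (C : Set S) := by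
      rw [Filter.eventually_all_finite hfin]
      intro C _
      exact not_frequently.1 (by simpa using hcon C)
    obtain ⟨s, h1, h2, h3, h4⟩ := (hall.and (hev.and (hpos.and hlt))).exists
    have hsS : γc s ∈ S := hγS s h3.le h4
    have : (⟨γc s, hsS⟩ : S) ∈ ⋃₀ 𝒞 := by rw [hcov]; trivial
    obtain ⟨C, hC, hsC⟩ := this
    exact h1 ⟨C, hC⟩ ⟨⟨γc s, hsS⟩, hsC, hsub h2⟩ ⟨⟨γc s, hsS⟩, hsC, rfl⟩
  obtain ⟨C, hC⟩ := hex
  have hclosed := (hcl C.1 C.2).1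
  rw [isClosed_induced_iff] at hclosed
  obtain ⟨Z, hZ, hZC⟩ := hclosed
  have h0Z : γc 0 ∈ Z := by
    refine hZ.mem_of_frequently_of_tendsto (hC.mono ?_) hcont
    rintro s ⟨x, hx, hxs⟩
    rw [← hxs]
    have : x ∈ Subtype.val ⁻¹' Z := by rw [hZC]; exact hx
    exact this
  have h0C : γc 0 ∈ Subtype.val '' (C : Set S) := by
    refine ⟨⟨γc 0, h00⟩, ?_, rfl⟩
    rw [← hZC]
    exact h0Z
  obtain ⟨U, hU, Gf, hGf, hFG⟩ := han C.1 C.2 (γc 0) h0C
  have hGan : AnalyticAt ℝ Gf (γc 0) := hGf _ (mem_of_mem_nhds hU)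
  have hA : AnalyticAt ℝ (fun s : ℝ => (2 + s) * Gf (γc s)) 0 := by
    apply AnalyticAt.mul
    · exact analyticAt_const.add analyticAt_id
    · exact hGan.comp hγA
  refine no_analytic (M := fun s => (2 + s) * F (γc s)) hc ht1 hlow hup hA ?_ ?_
  · rw [hFG (γc 0) ⟨h0C, mem_of_mem_nhds hU⟩]
  · have hevU : ∀ᶠ s in 𝓝[>] (0:ℝ), γc s ∈ U := hcont.eventually hU
    refine (hC.and_eventually hevU).mono ?_
    rintro s ⟨h1, h2⟩
    rw [hFG (γc s) ⟨h1, h2⟩]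

lemma piecewise_of_analytic {W : Type*} [NormedAddCommGroup W] [NormedSpace ℝ W] {F : W → ℝ}
    {S : Set W} (h : RealAnalyticOn F S) : PiecewiseRealAnalyticOn F S := by
  refine ⟨{Set.univ}, locallyFinite_of_finite _, ?_, ?_, ?_⟩
  · rintro C rfl
    exact ⟨isClosed_univ, by simp⟩
  · simp
  · rintro C rfl
    simpa using h

lemma exp_two_bound : exp (-2) < 1 / 5 := by
  have h1 := Real.exp_one_gt_d9
  have h2 : exp 2 = exp 1 * exp 1 := by rw [← exp_add]; norm_num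
  have h3 : 5 < exp 2 := by rw [h2]; nlinarith
  rw [exp_neg, ← one_div]
  exact one_div_lt_one_div_of_lt (by norm_num) h3

/-- The curve of parameters is analytic. -/
lemma par_analytic (β γ : ℝ) : AnalyticAt ℝ (fun s : ℝ => par (2 + s) β γ) 0 := by
  have hexp : AnalyticAt ℝ (fun s : ℝ => exp (-(2 + s))) 0 := by fun_prop
  have h0 : ∀ a : Fin 2, AnalyticAt ℝ
      (fun s : ℝ => ((exp (-(2 + s)), if a = 0 then (0:ℝ) else 1 / 2) : ℝ × ℝ)) 0 :=
    fun a => hexp.prod analyticAt_const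
  have h1 : ∀ a : Fin 5, AnalyticAt ℝ
      (fun _ : ℝ => (((if a = 0 then exp (-γ) else exp (-β)), (a : ℕ) / 5) : ℝ × ℝ)) 0 :=
    fun a => analyticAt_const
  refine AnalyticAt.pi fun i => ?_
  match i with
  | 0 => exact AnalyticAt.pi fun a => h0 a
  | 1 => exact AnalyticAt.pi fun a => h1 a

/-- Main theorem: failure of piecewise analyticity on every set containing the strongly Barański
parameters. -/
theorem main {S : Set (Param kk)} (hS : stronglyBaranski kk ⊆ S) :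
    ¬ PiecewiseRealAnalyticOn (HD EE) S := by
  obtain ⟨β, γ, z, hβ, hβγ, hz0, hz1, hmax, ⟨c, l, t1, hc, hl, ht1, hlow⟩, hup⟩ := cusp
  have he2 := exp_two_bound
  have hb : exp (-β) < 1 / 5 := lt_of_le_of_lt (exp_le_exp.2 (by linarith)) he2
  have hr : ∀ s : ℝ, 0 ≤ s → exp (-(2 + s)) < 1 / 2 := fun s hs =>
    lt_of_le_of_lt (exp_le_exp.2 (by linarith)) (he2.trans (by norm_num))
  have hM0 : (2 + 0) * HD EE (par (2 + 0) β γ) = binEntropy z + 2 * G β γ z := by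
    apply le_antisymm
    · apply HD_le (by norm_num) (by linarith) hβγ (hr 0 le_rfl) hb
      intro x hx
      rw [add_zero]
      exact hmax x hx
    · have := le_HD (α := 2 + 0) (by norm_num) (by linarith) hβγ (hr 0 le_rfl) hb hz0 hz1
      rw [add_zero] at this ⊢
      exact this
  refine not_piecewise (F := HD EE) (γc := fun s => par (2 + s) β γ) (s1 := 1 / 4)
    (g := G β γ z) (c := c) (t1 := min t1 (1 / 2)) (by norm_num) ?_ (par_analytic β γ) hc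
    (lt_min ht1 (by norm_num)) ?_ ?_
  · intro s hs0 _
    exact hS (par_strong hβγ (hr s hs0) hb)
  · intro t ht htt
    have ht1' : t < t1 := lt_of_lt_of_le htt (min_le_left _ _)
    have ht2 : t < 1 / 2 := lt_of_lt_of_le htt (min_le_right _ _)
    have ht3 : t ^ 3 ≤ 1 / 4 := by
      have : t ^ 3 ≤ (1 / 2) ^ 3 := by gcongr
      linarith [this]
    have ht30 : 0 < t ^ 3 := by positivity
    obtain ⟨h1, h2⟩ := hlow t ht ht1'
    rw [hM0]
    refine h2.trans ?_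
    have hlt0 : 0 < l * t := by positivity
    exact le_HD (α := 2 + t ^ 3) (by linarith) (by linarith) hβγ (hr _ ht30.le) hb h1
      (by linarith)
  · intro η hη
    obtain ⟨δ, hδ, h⟩ := hup η hη
    refine ⟨min δ (1 / 4), lt_min hδ (by norm_num), fun s hs0 hs => ?_⟩
    have hs1 : s < δ := lt_of_lt_of_le hs (min_le_left _ _)
    have hs2 : s < 1 / 4 := lt_of_lt_of_le hs (min_le_right _ _)
    rw [hM0]
    exact HD_le (by linarith) (by linarith) hβγ (hr s hs0.le) hb (fun x hx => h s hs0 hs1 x hx)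

end Pool.Agent.Bar
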