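import Pool.Agent.Bar.Coding

open MeasureTheory Filter Topology Real

namespace Pool.Agent.Bar

/-- alphabet sizes of the example -/
def kk : Fin 2 → ℕ
  | 0 => 2
  | 1 => 5

/-- the digits of the example -/
def sym (j : Fin 5) : Alph kk
  | 0 => if j = 0 then (0 : Fin 2) else (1 : Fin 2)
  | 1 => j

/-- the parameters of the example -/
noncomputable def par (α β γ : ℝ) : Param kk
  | 0 => fun (a : Fin 2) => (exp (-α), if a = 0 then 0 else 1 / 2)
  | 1 => fun (a : Fin 5) => (if a = 0 then exp (-γ) else exp (-β), (a : ℕ) / 5)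

/-- the digit set of the example -/
def EE : Set (Alph kk) := Set.range sym

variable {α β γ : ℝ}

lemma phi_zero (j : Fin 5) (x : ℝ) :
    phi (par α β γ) 0 (sym j 0) x = ρ0 α j * x + t0 j := by
  unfold phi par sym ρ0 t0
  by_cases h : j = 0
  · simp [h]
  · simp [h]

lemma phi_one (j : Fin 5) (x : ℝ) :
    phi (par α β γ) 1 (sym j 1) x = ρ1 β γ j * x + t1 j := rfl

lemma comp_eq (ω : ℕ → Fin 5) (n : ℕ) : ∀ x : EuclideanSpace ℝ (Fin 2),
    comp (par α β γ) (fun n => sym (ω n)) n x =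
      WithLp.toLp 2 ![Ps (ρ0 α) t0 ω n + R (ρ0 α) ω n * x 0,
        Ps (ρ1 β γ) t1 ω n + R (ρ1 β γ) ω n * x 1] := by
  induction n with
  | zero =>
    intro x
    ext i
    fin_cases i <;> simp [comp, Ps, R]
  | succ n ih =>
    intro x
    have h1 : comp (par α β γ) (fun n => sym (ω n)) (n + 1) x =
      comp (par α β γ) (fun n => sym (ω n)) n (phiVec (par α β γ) (sym (ω n)) x) := rfl
    rw [h1, ih]
    have e0 : (phiVec (par α β γ) (sym (ω n)) x) 0 = ρ0 α (ω n) * x 0 + t0 (ω n) :=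
      phi_zero _ _
    have e1 : (phiVec (par α β γ) (sym (ω n)) x) 1 = ρ1 β γ (ω n) * x 1 + t1 (ω n) :=
      phi_one _ _
    rw [e0, e1]
    have e2 : Ps (ρ0 α) t0 ω (n + 1) = Ps (ρ0 α) t0 ω n + R (ρ0 α) ω n * t0 (ω n) := by
      simp [Ps, Finset.sum_range_succ]
    have e3 : Ps (ρ1 β γ) t1 ω (n + 1) = Ps (ρ1 β γ) t1 ω n + R (ρ1 β γ) ω n * t1 (ω n) := by
      simp [Ps, Finset.sum_range_succ]
    rw [e2, e3, R_succ, R_succ]
    congr 1
    ext i
    fin_cases i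
    · simp; ring
    · simp; ring

lemma tendsto_comp (h2 : β ≤ γ) (hr : exp (-α) < 1 / 2) (hb : exp (-β) < 1 / 5)
    (ω : ℕ → Fin 5) :
    Tendsto (fun n => comp (par α β γ) (fun n => sym (ω n)) n 0) atTop (𝓝 (Pi2 α β γ ω)) := by
  simp only [comp_eq]
  unfold Pi2
  refine ((PiLp.continuous_toLp 2 _).tendsto _).comp ?_
  rw [tendsto_pi_nhds]
  intro i
  fin_cases i
  · simp only [PiLp.zero_apply, mul_zero, add_zero]
    exact tendsto_Ps (ok0 hr) ω
  · simp only [PiLp.zero_apply, mul_zero, add_zero]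
    exact tendsto_Ps (ok1 h2 hb) ω

lemma limitSet_eq (h2 : β ≤ γ) (hr : exp (-α) < 1 / 2) (hb : exp (-β) < 1 / 5) :
    limitSet EE (par α β γ) = Set.range (Pi2 α β γ) := by
  ext z
  constructor
  · rintro ⟨ω, hω, hz⟩
    choose u hu using hω
    have : ω = fun n => sym (u n) := by funext n; exact (hu n).symm
    subst this
    exact ⟨u, tendsto_nhds_unique (tendsto_comp h2 hr hb u) hz⟩
  · rintro ⟨u, rfl⟩
    exact ⟨fun n => sym (u n), fun n => ⟨u n, rfl⟩, tendsto_comp h2 hr hb u⟩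

lemma dimH_le (ha : 0 < α) (h1 : α ≤ β) (h2 : β ≤ γ) (hr : exp (-α) < 1 / 2)
    (hb : exp (-β) < 1 / 5) {K : ℝ} (hK0 : 0 ≤ K)
    (hK : ∀ x ∈ Set.Icc (0:ℝ) 1, binEntropy x + α * G β γ x ≤ K) :
    dimH (limitSet EE (par α β γ)) ≤ ENNReal.ofReal (K / α) := by
  rw [limitSet_eq h2 hr hb]
  refine dimH_le_of_upper (C := 1 + exp γ) ha h1 h2 (by positivity) ?_ (Pi2 α β γ) (by positivity)
    (fun ω ω' n h => upper_est ha h1 h2 hr hb ω ω' n h)
  intro x hx
  rw [mul_div_cancel₀ _ ha.ne']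
  exact hK x hx

lemma G_le (hb : 0 < β) (h2 : β ≤ γ) {x : ℝ} (hx : 0 ≤ x) : G β γ x ≤ log 4 / β := by
  unfold G
  have h3 := den_pos hb h2 hx
  have h4 := log4_pos
  rw [div_le_div_iff₀ h3 hb]
  have h5 : 0 ≤ (γ - β) * x := mul_nonneg (by linarith) hx
  have h6 : 0 ≤ log 4 * x * β := by positivity
  have h7 : 0 ≤ log 4 * ((γ - β) * x) := by positivity
  nlinarith

lemma dimH_ne_top (ha : 0 < α) (h1 : α ≤ β) (h2 : β ≤ γ) (hr : exp (-α) < 1 / 2)
    (hb : exp (-β) < 1 / 5) : dimH (limitSet EE (par α β γ)) ≠ ⊤ := by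
  have hb' : 0 < β := by linarith
  have h4 := log4_pos
  have := dimH_le (K := log 2 + α * (log 4 / β)) ha h1 h2 hr hb ?_ ?_
  · exact ne_top_of_le_ne_top ENNReal.ofReal_ne_top this
  · have : 0 < log 2 := log_pos (by norm_num)
    positivity
  · intro x hx
    have h5 : binEntropy x ≤ log 2 := binEntropy_le_log_two
    have h6 := G_le hb' h2 hx.1
    have := mul_le_mul_of_nonneg_left h6 ha.le
    linarith

lemma HD_le (ha : 0 < α) (h1 : α ≤ β) (h2 : β ≤ γ) (hr : exp (-α) < 1 / 2)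
    (hb : exp (-β) < 1 / 5) {K : ℝ}
    (hK : ∀ x ∈ Set.Icc (0:ℝ) 1, binEntropy x + α * G β γ x ≤ K) :
    α * HD EE (par α β γ) ≤ K := by
  have hK0 : 0 ≤ K := by
    have h3 := hK 0 ⟨le_rfl, zero_le_one⟩
    have h4 := G_nonneg (β := β) (γ := γ) (by linarith) h2 (le_refl (0:ℝ)) zero_le_one
    rw [binEntropy_zero] at h3
    have : 0 ≤ α * G β γ 0 := by positivity
    linarith
  have h3 := dimH_le ha h1 h2 hr hb hK0 hK
  have h4 : HD EE (par α β γ) ≤ K / α := by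
    unfold HD
    exact ENNReal.toReal_le_of_le_ofReal (by positivity) h3
  rw [le_div_iff₀ ha] at h4
  linarith

lemma le_HD (ha : 0 < α) (h1 : α ≤ β) (h2 : β ≤ γ) (hr : exp (-α) < 1 / 2)
    (hb : exp (-β) < 1 / 5) {q : ℝ} (h0 : 0 < q) (hq1 : q < 1) :
    binEntropy q + α * G β γ q ≤ α * HD EE (par α β γ) := by
  set D := binEntropy q + α * G β γ q with hD
  have h3 : D / α ≤ HD EE (par α β γ) := by
    apply le_of_forall_lt_imp_le_of_dense
    intro s hs
    rcases le_or_gt s 0 with h | h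
    · exact h.trans ENNReal.toReal_nonneg
    · have hs' : α * s < D := by rw [lt_div_iff₀ ha] at hs; linarith
      have h4 := le_dimH_of_lower ha h1 h2 h0 hq1 h hs' (Pi2 α β γ) (measurable_Pi2 h2 hr hb)
        (c := min (1 / 2 - exp (-α)) (1 / 5 - exp (-β)))
        (lt_min (by linarith) (by linarith))
        (fun ω ω' n hh => lower_est ha h1 h2 hr hb ω ω' n hh)
      rw [← limitSet_eq h2 hr hb] at h4
      unfold HD
      have h5 := ENNReal.toReal_mono (dimH_ne_top ha h1 h2 hr hb) h4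
      rwa [ENNReal.toReal_ofReal h.le] at h5
  rw [div_le_iff₀ ha] at h3
  linarith

/-! ### Membership of the example in the parameter sets -/

lemma exp_one_bounds (h2 : β ≤ γ) (hb : exp (-β) < 1 / 5) : exp (-γ) < 1 / 5 :=
  lt_of_le_of_lt (exp_le_exp.2 (by linarith)) hb

lemma adm_aux {r t : ℝ} (h1 : 0 < r) (h2 : r < 1) (h3 : 0 ≤ t) (h4 : t + r ≤ 1) :
    0 < |r| ∧ |r| < 1 ∧
      Set.MapsTo (fun x : ℝ => r * x + t) (Set.Icc 0 1) (Set.Icc 0 1) := by
  refine ⟨abs_pos.2 h1.ne', by rw [abs_of_pos h1]; exact h2, ?_⟩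
  intro x hx
  have h5 : 0 ≤ r * x := mul_nonneg h1.le hx.1
  have h6 : r * x ≤ r := by nlinarith [hx.2]
  exact ⟨by simp only; linarith, by simp only; linarith⟩

lemma disj_aux {r t r' t' : ℝ} (h1 : 0 < r) (h1' : 0 < r')
    (h : t + r < t' ∨ t' + r' < t) :
    Disjoint ((fun x : ℝ => r * x + t) '' Set.Icc 0 1)
      ((fun x : ℝ => r' * x + t') '' Set.Icc 0 1) := by
  rw [Set.disjoint_left]
  rintro _ ⟨x, hx, rfl⟩ ⟨x', hx', h9⟩
  simp only at h9
  have h5 : 0 ≤ r * x := mul_nonneg h1.le hx.1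
  have h6 : r * x ≤ r := by nlinarith [hx.2]
  have h7 : 0 ≤ r' * x' := mul_nonneg h1'.le hx'.1
  have h8 : r' * x' ≤ r' := by nlinarith [hx'.2]
  rcases h with h | h <;> linarith

/-- ratios in direction 1 -/
lemma rat1 (h2 : β ≤ γ) (hb : exp (-β) < 1 / 5) (c : Fin 5) :
    0 < (if c = 0 then exp (-γ) else exp (-β)) ∧
        (if c = 0 then exp (-γ) else exp (-β)) < 1 / 5 := by
  have hc := exp_one_bounds h2 hb
  split_ifs
  · exact ⟨exp_pos _, hc⟩
  · exact ⟨exp_pos _, hb⟩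

lemma par_adm (h2 : β ≤ γ) (hr : exp (-α) < 1 / 2) (hb : exp (-β) < 1 / 5) :
    Admissible (par α β γ) := by
  have h0 : ∀ a : Fin 2, 0 < |exp (-α)| ∧ |exp (-α)| < 1 ∧
      Set.MapsTo (fun x : ℝ => exp (-α) * x + (if a = 0 then (0:ℝ) else 1 / 2))
        (Set.Icc 0 1) (Set.Icc 0 1) := by
    intro a
    refine adm_aux (exp_pos _) (by linarith) ?_ ?_ <;> split_ifs <;> linarith
  have h1 : ∀ a : Fin 5, 0 < |(if a = 0 then exp (-γ) else exp (-β))| ∧
      |(if a = 0 then exp (-γ) else exp (-β))| < 1 ∧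
      Set.MapsTo (fun x : ℝ => (if a = 0 then exp (-γ) else exp (-β)) * x + ((a : ℕ) : ℝ) / 5)
        (Set.Icc 0 1) (Set.Icc 0 1) := by
    intro a
    have h3 := rat1 h2 hb a
    have h4 := t1_le a
    unfold t1 at h4
    exact adm_aux h3.1 (by linarith [h3.2]) (by positivity) (by linarith [h3.2])
  intro i a
  match i, a with
  | 0, a => exact h0 a
  | 1, a => exact h1 a

lemma par_disj (h2 : β ≤ γ) (hr : exp (-α) < 1 / 2) (hb : exp (-β) < 1 / 5) :
    ∀ (i : Fin 2) (a b : Fin (kk i)), a ≠ b →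
    Disjoint (phi (par α β γ) i a '' Set.Icc 0 1) (phi (par α β γ) i b '' Set.Icc 0 1) := by
  have h0 : ∀ a b : Fin 2, a ≠ b →
      Disjoint ((fun x : ℝ => exp (-α) * x + (if a = 0 then (0:ℝ) else 1 / 2)) '' Set.Icc 0 1)
      ((fun x : ℝ => exp (-α) * x + (if b = 0 then (0:ℝ) else 1 / 2)) '' Set.Icc 0 1) := by
    intro a b hab
    apply disj_aux (exp_pos _) (exp_pos _)
    by_cases h7 : a = 0
    · have h8 : b ≠ 0 := fun h => hab (h7.trans h.symm)
      left; rw [if_pos h7, if_neg h8]; linarith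
    · have h8 : b = 0 := by omega
      right; rw [if_neg h7, if_pos h8]; linarith
  have h1 : ∀ a b : Fin 5, a ≠ b →
      Disjoint ((fun x : ℝ => (if a = 0 then exp (-γ) else exp (-β)) * x + ((a : ℕ) : ℝ) / 5) ''
        Set.Icc 0 1)
      ((fun x : ℝ => (if b = 0 then exp (-γ) else exp (-β)) * x + ((b : ℕ) : ℝ) / 5) ''
        Set.Icc 0 1) := by
    intro a b hab
    have h3 := rat1 h2 hb a
    have h4 := rat1 h2 hb b
    apply disj_aux h3.1 h4.1
    have hab' : (a : ℕ) ≠ (b : ℕ) := fun hh => hab (Fin.ext hh)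
    rcases lt_or_gt_of_ne hab' with h13 | h13
    · left
      have : ((a : ℕ) : ℝ) + 1 ≤ (b : ℕ) := by exact_mod_cast h13
      linarith [h3.2]
    · right
      have : ((b : ℕ) : ℝ) + 1 ≤ (a : ℕ) := by exact_mod_cast h13
      linarith [h4.2]
  intro i a b hab
  match i, a, b, hab with
  | 0, a, b, hab => exact h0 a b hab
  | 1, a, b, hab => exact h1 a b hab

lemma par_strong (h2 : β ≤ γ) (hr : exp (-α) < 1 / 2) (hb : exp (-β) < 1 / 5) :
    par α β γ ∈ stronglyBaranski kk :=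
  ⟨par_adm h2 hr hb, par_disj h2 hr hb⟩

lemma strong_sub : stronglyBaranski kk ⊆ baranski kk := by
  rintro Φ ⟨h1, h2⟩
  refine ⟨h1, fun i a b hab => (h2 i a b hab).mono ?_ ?_⟩
  · exact Set.image_mono Set.Ioo_subset_Icc_self
  · exact Set.image_mono Set.Ioo_subset_Icc_self

end Pool.Agent.Bar
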