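import Pool.Agent.Bar.Upper

open MeasureTheory Filter Topology Real ProbabilityTheory

namespace Pool.Agent.Bar

variable {α β γ : ℝ}

lemma slln {q : ℝ} (h0 : 0 ≤ q) (hq1 : q ≤ 1) :
    ∀ᵐ ω ∂(Measure.infinitePi (fun _ : ℕ => p q)),
      Tendsto (fun n : ℕ => y ω n) atTop (𝓝 q) := by
  have := isProb_p h0 hq1
  set ν := Measure.infinitePi (fun _ : ℕ => p q) with hν
  set X : ℕ → (ℕ → Fin 5) → ℝ := fun i ω => (T (ω i) : ℝ) with hX
  have hmeasT : Measurable (fun x : Fin 5 => (T x : ℝ)) := measurable_of_finite _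
  have hmeas : ∀ i, Measurable (X i) := fun i => hmeasT.comp (measurable_pi_apply i)
  have hint : Integrable (X 0) ν := by
    refine Integrable.of_bound (hmeas 0).aestronglyMeasurable 1 (Eventually.of_forall fun ω => ?_)
    have h1 : (T (ω 0) : ℝ) ≤ 1 := by exact_mod_cast T_le (ω 0)
    rw [Real.norm_eq_abs, abs_of_nonneg (Nat.cast_nonneg _)]
    exact h1
  have hindep : Pairwise (Function.onFun (fun f g => IndepFun f g ν) X) := by
    intro i j hij
    have h1 := iIndepFun_infinitePi (P := fun _ : ℕ => p q) (X := fun _ x => (T x : ℝ))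
      (fun _ => hmeasT)
    exact h1.indepFun hij
  have hmap : ∀ i, Measure.map (X i) ν = Measure.map (fun x : Fin 5 => (T x : ℝ)) (p q) := by
    intro i
    have : X i = (fun x : Fin 5 => (T x : ℝ)) ∘ (Function.eval i) := rfl
    rw [this, ← Measure.map_map hmeasT (measurable_pi_apply i), hν,
      Measure.infinitePi_map_eval]
  have hident : ∀ i, IdentDistrib (X i) (X 0) ν ν := fun i =>
    ⟨(hmeas i).aemeasurable, (hmeas 0).aemeasurable, by rw [hmap, hmap]⟩
  have hE : ∫ ω, X 0 ω ∂ν = q := by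
    have h1 : ∀ ω, X 0 ω = (Function.eval 0 ⁻¹' ({0} : Set (Fin 5))).indicator 1 ω := by
      intro ω
      simp only [hX, T, Set.indicator, Set.mem_preimage, Function.eval, Set.mem_singleton_iff]
      split_ifs <;> simp
    simp only [h1]
    rw [integral_indicator_one (measurable_pi_apply 0 (Set.toFinite _).measurableSet), measureReal_def]
    have h2 : ν (Function.eval 0 ⁻¹' ({0} : Set (Fin 5))) = p q {0} := by
      rw [← Measure.infinitePi_map_eval (fun _ : ℕ => p q) 0, Measure.map_apply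
        (measurable_pi_apply 0) (Set.toFinite _).measurableSet]
    rw [h2, p_singleton h0 hq1, w, if_pos rfl, ENNReal.toReal_ofReal h0]
  have h3 := strong_law_ae_real X hint hindep hident
  rw [hE] at h3
  filter_upwards [h3] with ω hω
  refine hω.congr fun n => ?_
  simp only [hX, y, N]
  push_cast
  rfl

lemma V_eq_mul (ω : ℕ → Fin 5) (m : ℕ) : V β γ ω m = m * (β + (γ - β) * y ω m) := by
  rcases Nat.eq_zero_or_pos m with rfl | h
  · simp [V_zero]
  · have : (m:ℝ) ≠ 0 := by positivity
    unfold V y; field_simp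

lemma tendsto_ell (ha : 0 < α) (h1 : α ≤ β) (h2 : β ≤ γ) (ω : ℕ → Fin 5) :
    Tendsto (fun n => ell α β γ ω n) atTop atTop := by
  have hg : 0 < γ := by linarith
  rw [← tendsto_natCast_atTop_iff (R := ℝ)]
  have h3 : Tendsto (fun n : ℕ => α / γ * (n:ℝ) - 1) atTop atTop :=
    tendsto_atTop_add_const_right _ _ ((tendsto_natCast_atTop_atTop).const_mul_atTop (by positivity))
  refine tendsto_atTop_mono (fun n => ?_) h3
  have h4 := lt_V_ell_succ ha h1 h2 ω n
  have h5 := V_le h2 ω (ell α β γ ω n + 1)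
  push_cast at h5
  have h6 : α * n / γ ≤ (ell α β γ ω n : ℝ) + 1 := by
    rw [div_le_iff₀ hg]; linarith
  have : α / γ * (n:ℝ) = α * n / γ := by ring
  rw [this]; linarith

lemma tendsto_ratio (ha : 0 < α) (h1 : α ≤ β) (h2 : β ≤ γ) (ω : ℕ → Fin 5) {q : ℝ} (h0 : 0 ≤ q)
    (hω : Tendsto (fun n : ℕ => y ω n) atTop (𝓝 q)) :
    Tendsto (fun n : ℕ => (((ell α β γ ω n - N ω (ell α β γ ω n) : ℕ) : ℝ) * log 4) / n) atTop
      (𝓝 (α * G β γ q)) := by
  have hb : 0 < β := by linarith
  have hy := hω.comp (tendsto_ell ha h1 h2 ω)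
  have hV : Tendsto (fun n : ℕ => V β γ ω (ell α β γ ω n) / (α * n)) atTop (𝓝 1) := by
    have h3 : Tendsto (fun n : ℕ => 1 - γ / α * (1 / (n:ℝ))) atTop (𝓝 (1 - γ / α * 0)) :=
      tendsto_const_nhds.sub (tendsto_one_div_atTop_nhds_zero_nat.const_mul _)
    rw [mul_zero, sub_zero] at h3
    refine tendsto_of_tendsto_of_tendsto_of_le_of_le' h3 tendsto_const_nhds ?_ ?_
    · filter_upwards [eventually_gt_atTop 0] with n hn
      have hn' : (0:ℝ) < n := by exact_mod_cast hn
      have h4 := lt_V_ell_succ ha h1 h2 ω n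
      have h5 := V_succ_le h2 ω (ell α β γ ω n)
      rw [le_div_iff₀ (by positivity)]
      have : (1 - γ / α * (1 / (n:ℝ))) * (α * n) = α * n - γ := by field_simp
      rw [this]; linarith
    · filter_upwards [eventually_gt_atTop 0] with n hn
      have hn' : (0:ℝ) < n := by exact_mod_cast hn
      rw [div_le_one (by positivity)]
      exact V_ell_le ha.le ω n
  have hden : β + (γ - β) * q ≠ 0 := (den_pos hb h2 h0).ne'
  have hlim : Tendsto (fun n : ℕ => (V β γ ω (ell α β γ ω n) / (α * n)) *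
      (α * ((1 - y ω (ell α β γ ω n)) * log 4 / (β + (γ - β) * y ω (ell α β γ ω n))))) atTop
      (𝓝 (1 * (α * ((1 - q) * log 4 / (β + (γ - β) * q))))) := by
    refine hV.mul (Tendsto.const_mul _ (Tendsto.div ?_ ?_ hden))
    · exact (tendsto_const_nhds.sub hy).mul_const _
    · exact tendsto_const_nhds.add (hy.const_mul _)
  rw [one_mul] at hlim
  refine hlim.congr' ?_
  filter_upwards [eventually_gt_atTop 0] with n hn
  have hn' : (0:ℝ) < n := by exact_mod_cast hn
  set m := ell α β γ ω n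
  have hd := (den_pos hb h2 (y_nonneg ω m)).ne'
  rw [V_eq_mul, Nat.cast_sub (N_le ω m)]
  have e2 : (N ω m : ℝ) = m * y ω m := by
    rcases Nat.eq_zero_or_pos m with h | h
    · rw [h]; simp [N_zero]
    · have : (m:ℝ) ≠ 0 := by positivity
      unfold y; field_simp
  rw [e2]
  field_simp

lemma mB_pos {q : ℝ} (h0 : 0 < q) (hq1 : q < 1) (ω : ℕ → Fin 5) (n : ℕ) :
    0 < mB α β γ q ω n := by
  unfold mB
  have : 0 < 1 - q := by linarith
  positivity

lemma tendsto_log_mB (ha : 0 < α) (h1 : α ≤ β) (h2 : β ≤ γ) (ω : ℕ → Fin 5) {q : ℝ} (h0 : 0 < q)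
    (hq1 : q < 1) (hω : Tendsto (fun n : ℕ => y ω n) atTop (𝓝 q)) :
    Tendsto (fun n : ℕ => - log (mB α β γ q ω n) / n) atTop
      (𝓝 (binEntropy q + α * G β γ q)) := by
  have h3 := tendsto_ratio ha h1 h2 ω h0.le hω
  have h4 : Tendsto (fun n : ℕ => (y ω n * log q⁻¹ + (1 - y ω n) * log (1 - q)⁻¹) +
      (((ell α β γ ω n - N ω (ell α β γ ω n) : ℕ) : ℝ) * log 4) / n) atTop
      (𝓝 ((q * log q⁻¹ + (1 - q) * log (1 - q)⁻¹) + α * G β γ q)) :=
    ((hω.mul_const _).add ((tendsto_const_nhds.sub hω).mul_const _)).add h3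
  refine h4.congr' ?_
  filter_upwards [eventually_gt_atTop 0] with n hn
  have hn' : (0:ℝ) < n := by exact_mod_cast hn
  have hq : 0 < 1 - q := by linarith
  unfold mB
  rw [log_mul (by positivity) (by positivity), log_mul (by positivity) (by positivity), log_pow,
    log_pow, log_pow, Nat.cast_sub (N_le ω n), one_div, log_inv, log_inv, log_inv]
  unfold y
  field_simp
  ring

/-- uniform set -/
def AM (α β γ q s : ℝ) (M : ℕ) : Set (ℕ → Fin 5) :=
  {ω | ∀ n, M ≤ n → mB α β γ q ω n ≤ exp (-(n * (α * s)))}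

lemma exists_AM (ha : 0 < α) (h1 : α ≤ β) (h2 : β ≤ γ) {q : ℝ} (h0 : 0 < q) (hq1 : q < 1) {s : ℝ}
    (hs : α * s < binEntropy q + α * G β γ q) :
    ∃ M, Measure.infinitePi (fun _ : ℕ => p q) (AM α β γ q s M) ≠ 0 := by
  by_contra hcon
  push Not at hcon
  have := isProb_p h0.le hq1.le
  have h3 := measure_iUnion_null hcon
  have h4 : ∀ᵐ ω ∂(Measure.infinitePi (fun _ : ℕ => p q)), ω ∈ ⋃ M, AM α β γ q s M := by
    filter_upwards [slln h0.le hq1.le] with ω hω
    have h5 := tendsto_log_mB ha h1 h2 ω h0 hq1 hω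
    have h6 := (h5.eventually (lt_mem_nhds hs)).and (eventually_gt_atTop 0)
    obtain ⟨M, hM⟩ := eventually_atTop.1 h6
    rw [Set.mem_iUnion]
    refine ⟨M, fun n hn => ?_⟩
    obtain ⟨h7, h8⟩ := hM n hn
    have hn' : (0:ℝ) < n := by exact_mod_cast h8
    rw [lt_div_iff₀ hn'] at h7
    rw [← Real.log_le_iff_le_exp (mB_pos h0 hq1 ω n)]
    linarith
  have h5 : Measure.infinitePi (fun _ : ℕ => p q) Set.univ = 0 := by
    rw [ae_iff] at h4
    refine measure_mono_null (t := {a | ¬ a ∈ ⋃ M, AM α β γ q s M} ∪ ⋃ M, AM α β γ q s M) ?_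
      (measure_union_null h4 h3)
    intro ω _
    by_cases h : ω ∈ ⋃ M, AM α β γ q s M
    · exact Or.inr h
    · exact Or.inl h
  rw [measure_univ] at h5
  exact one_ne_zero h5

open scoped ENNReal in
theorem le_dimH_of_lower {X : Type*} [EMetricSpace X] [MeasurableSpace X] [BorelSpace X]
    (ha : 0 < α) (h1 : α ≤ β) (h2 : β ≤ γ) {q : ℝ} (h0 : 0 < q) (hq1 : q < 1) {s : ℝ}
    (hs0 : 0 < s) (hs : α * s < binEntropy q + α * G β γ q)
    (P : (ℕ → Fin 5) → X) (hPm : Measurable P) {c : ℝ} (hc : 0 < c)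
    (hP : ∀ ω ω', ∀ n : ℕ, edist (P ω) (P ω') < ENNReal.ofReal (c * exp (-(α * n))) →
      ω' ∈ B α β γ ω n) :
    ENNReal.ofReal s ≤ dimH (Set.range P) := by
  have := isProb_p h0.le hq1.le
  obtain ⟨M, hM⟩ := exists_AM ha h1 h2 h0 hq1 hs
  set ν := Measure.infinitePi (fun _ : ℕ => p q) with hν
  set μ := Measure.map P (ν.restrict (AM α β γ q s M)) with hμ
  set e : ℕ → ENNReal := fun n => ENNReal.ofReal (c * exp (-(α * n))) with he
  have he_tend : Tendsto e atTop (𝓝 0) := by
    have h3 : Tendsto (fun M : ℕ => c * exp (-(α * (M:ℝ)))) atTop (𝓝 (c * 0)) := by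
      apply Tendsto.const_mul
      apply Real.tendsto_exp_neg_atTop_nhds_zero.comp
      exact (tendsto_natCast_atTop_atTop).const_mul_atTop ha
    rw [mul_zero] at h3
    have := ENNReal.tendsto_ofReal h3
    rwa [ENNReal.ofReal_zero] at this
  have hePos : ∀ n, 0 < e n := fun n => ENNReal.ofReal_pos.2 (by positivity)
  have heAnti : Antitone e := by
    intro m n hmn
    apply ENNReal.ofReal_le_ofReal
    gcongr
  set K : ℝ := exp (α * s) / c ^ s with hK
  have hcs : 0 < c ^ s := Real.rpow_pos_of_pos hc s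
  have hKpos : 0 < K := by positivity
  have hKe : ∀ m : ℕ, ENNReal.ofReal (exp (-(m * (α * s)))) =
      ENNReal.ofReal K * (e (m + 1)) ^ s := by
    intro m
    rw [he]
    simp only
    rw [ENNReal.ofReal_rpow_of_pos (by positivity), ← ENNReal.ofReal_mul hKpos.le]
    congr 1
    rw [Real.mul_rpow hc.le (exp_pos _).le, ← exp_mul, hK]
    have : exp (α * s) / c ^ s * (c ^ s * exp (-(α * ((m + 1 : ℕ) : ℝ)) * s)) =
        exp (α * s) * exp (-(α * ((m + 1 : ℕ) : ℝ)) * s) := by field_simp
    rw [this, ← exp_add]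
    congr 1
    push_cast
    ring
  -- the basic estimate
  have hbasic : ∀ (s' : Set X) (m : ℕ), M ≤ m → Metric.ediam s' < e m →
      μ s' ≤ ENNReal.ofReal (exp (-(m * (α * s)))) := by
    intro s' m hm hd
    have h3 : μ s' ≤ μ (closure s') := measure_mono subset_closure
    refine h3.trans ?_
    rw [hμ, Measure.map_apply hPm isClosed_closure.measurableSet,
      Measure.restrict_apply (hPm isClosed_closure.measurableSet)]
    rcases Set.eq_empty_or_nonempty (P ⁻¹' closure s' ∩ AM α β γ q s M) with h4 | ⟨ω, hω⟩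
    · rw [h4]; simp
    · have h5 : P ⁻¹' closure s' ∩ AM α β γ q s M ⊆ B α β γ ω m := by
        intro ω' hω'
        apply hP
        have h6 : edist (P ω) (P ω') ≤ Metric.ediam (closure s') :=
          Metric.edist_le_ediam_of_mem (s := closure s') hω.1 hω'.1
        rw [Metric.ediam_closure] at h6
        exact lt_of_le_of_lt h6 hd
      refine (measure_mono h5).trans ?_
      rw [hν, measure_B ha h1 h2 h0.le hq1.le]
      exact ENNReal.ofReal_le_ofReal (hω.2 m hm)
  have hest : ∀ s' : Set X, Metric.ediam s' ≤ e (M + 1) →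
      (ENNReal.ofReal K)⁻¹ * μ s' ≤ Metric.ediam s' ^ s := by
    intro s' hs'
    have heMlt : e (M + 1) < e M := by
      rw [he]
      apply ENNReal.ofReal_lt_ofReal_iff_of_nonneg (by positivity) |>.2
      push_cast
      have : exp (-(α * ((M:ℝ) + 1))) < exp (-(α * M)) := by
        apply exp_lt_exp.2; nlinarith
      exact mul_lt_mul_of_pos_left this hc
    have hlt := lt_of_le_of_lt hs' heMlt
    rcases eq_or_ne (Metric.ediam s') 0 with h0' | h0'
    · have h3 : μ s' ≤ 0 := by
        have h4 : Tendsto (fun m : ℕ => ENNReal.ofReal (exp (-(m * (α * s))))) atTop (𝓝 0) := by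
          have h5 : Tendsto (fun m : ℕ => exp (-((m:ℝ) * (α * s)))) atTop (𝓝 0) := by
            apply Real.tendsto_exp_neg_atTop_nhds_zero.comp
            exact (tendsto_natCast_atTop_atTop).atTop_mul_const (by positivity)
          have := ENNReal.tendsto_ofReal h5
          rwa [ENNReal.ofReal_zero] at this
        refine ge_of_tendsto h4 ?_
        filter_upwards [eventually_ge_atTop M] with m hm
        exact hbasic s' m hm (by rw [h0']; exact hePos m)
      have h4 : μ s' = 0 := le_antisymm h3 (zero_le)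
      rw [h4, mul_zero]
      exact zero_le
    · classical
      have hex : ∃ n, e n ≤ Metric.ediam s' := by
        obtain ⟨n, hn⟩ := (he_tend.eventually (gt_mem_nhds (pos_iff_ne_zero.2 h0'))).exists
        exact ⟨n, hn.le⟩
      set n := Nat.find hex with hn
      have hn1 : e n ≤ Metric.ediam s' := Nat.find_spec hex
      have hn2 : M < n := by
        by_contra h
        push Not at h
        exact absurd (lt_of_le_of_lt hn1 hlt) (not_lt.2 (heAnti h))
      obtain ⟨m, hm⟩ : ∃ m, n = m + 1 := ⟨n - 1, by omega⟩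
      have hm3 : Metric.ediam s' < e m := by
        have := Nat.find_min hex (m := m) (by rw [← hn]; omega)
        exact not_le.1 this
      have h3 := hbasic s' m (by omega) hm3
      rw [hKe m, ← hm] at h3
      calc (ENNReal.ofReal K)⁻¹ * μ s' ≤ (ENNReal.ofReal K)⁻¹ * (ENNReal.ofReal K * e n ^ s) := by
            gcongr
        _ = e n ^ s := by
            rw [← mul_assoc, ENNReal.inv_mul_cancel (ENNReal.ofReal_pos.2 hKpos).ne'
              ENNReal.ofReal_ne_top, one_mul]
        _ ≤ Metric.ediam s' ^ s := ENNReal.rpow_le_rpow hn1 hs0.le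
  have hle := Measure.le_hausdorffMeasure s ((ENNReal.ofReal K)⁻¹ • μ) (e (M + 1)) (hePos _)
    (fun s' hs' => by
      rw [Measure.smul_apply, smul_eq_mul]
      exact hest s' hs')
  have hne : ((ENNReal.ofReal K)⁻¹ • μ) (Set.range P) ≠ 0 := by
    rw [Measure.smul_apply, smul_eq_mul]
    apply mul_ne_zero
    · exact ENNReal.inv_ne_zero.2 ENNReal.ofReal_ne_top
    · intro h3
      have h4 := measure_toMeasurable (μ := μ) (Set.range P)
      rw [h3, hμ, Measure.map_apply hPm (measurableSet_toMeasurable _ _),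
        Measure.restrict_apply (hPm (measurableSet_toMeasurable _ _))] at h4
      apply hM
      refine measure_mono_null ?_ h4
      intro ω hω
      exact ⟨subset_toMeasurable _ _ ⟨ω, rfl⟩, hω⟩
  have hfin : μH[s] (Set.range P) ≠ 0 := by
    intro h3
    apply hne
    exact le_antisymm ((hle (Set.range P)).trans h3.le) (zero_le)
  have := le_dimH_of_hausdorffMeasure_ne_zero (d := Real.toNNReal s) (s := Set.range P)
    (by rw [Real.coe_toNNReal _ hs0.le]; exact hfin)
  exact this

end Pool.Agent.Bar
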