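import Pool.Agent.Bar.Cusp

open MeasureTheory Filter Topology Real

namespace Pool.Agent.Bar

section
variable {z : ℝ} (hz : 1 / 9 ≤ z) (hz' : z ≤ 1 / 7)
  (hroot : log (1 - z) - log z = 3 / (2 * (1 - 2 * z)))
include hz hz'

lemma f0_cont : ContinuousOn (f0 z) (Set.Icc 0 1) := by
  unfold f0
  apply ContinuousOn.add binEntropy_continuous.continuousOn
  apply ContinuousOn.mul continuousOn_const
  apply ContinuousOn.div (by fun_prop) (by fun_prop)
  intro x hx
  exact (den_pos' hz hz' hx.1).ne'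

lemma f1_cont : ContinuousOn (f1 z) (Set.Ioo 0 1) := fun x hx =>
  (hasDeriv1 hz hz' hx.1 hx.2).continuousAt.continuousWithinAt

include hroot

lemma f1_pos {x : ℝ} (hx : 0 < x) (hxz : x < z) : 0 < f1 z x := by
  have h1 : StrictAntiOn (f1 z) (Set.Ioc 0 z) := by
    apply strictAntiOn_of_deriv_neg (convex_Ioc 0 z)
    · exact (f1_cont hz hz').mono fun y hy => ⟨hy.1, by have := hy.2; linarith⟩
    · intro y hy
      rw [interior_Ioc] at hy
      have hy1 : y < 1 := by have := hy.2; linarith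
      rw [(hasDeriv1 hz hz' hy.1 hy1).deriv]
      exact f2_neg hz hz' hy.1 hy1 hy.2.ne
  have h2 := h1 ⟨hx, hxz.le⟩ ⟨by linarith, le_rfl⟩ hxz
  rw [f1_z hz hz' hroot] at h2
  exact h2

lemma f1_neg {x : ℝ} (hxz : z < x) (hx1 : x < 1) : f1 z x < 0 := by
  have h1 : StrictAntiOn (f1 z) (Set.Ico z 1) := by
    apply strictAntiOn_of_deriv_neg (convex_Ico z 1)
    · exact (f1_cont hz hz').mono fun y hy => ⟨by have := hy.1; linarith, hy.2⟩
    · intro y hy
      rw [interior_Ico] at hy
      have hy0 : 0 < y := by have := hy.1; linarith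
      rw [(hasDeriv1 hz hz' hy0 hy.2).deriv]
      exact f2_neg hz hz' hy0 hy.2 hy.1.ne'
  have h2 := h1 ⟨le_rfl, by linarith⟩ ⟨hxz.le, hx1⟩ hxz
  rw [f1_z hz hz' hroot] at h2
  exact h2

lemma f0_mono : StrictMonoOn (f0 z) (Set.Icc 0 z) := by
  apply strictMonoOn_of_deriv_pos (convex_Icc 0 z)
  · exact (f0_cont hz hz').mono fun y hy => ⟨hy.1, by have := hy.2; linarith⟩
  · intro y hy
    rw [interior_Icc] at hy
    have hy1 : y < 1 := by have := hy.2; linarith
    rw [(hasDeriv0 hz hz' hy.1 hy1).deriv]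
    exact f1_pos hz hz' hroot hy.1 hy.2

lemma f0_anti : StrictAntiOn (f0 z) (Set.Icc z 1) := by
  apply strictAntiOn_of_deriv_neg (convex_Icc z 1)
  · exact (f0_cont hz hz').mono fun y hy => ⟨by have := hy.1; linarith, hy.2⟩
  · intro y hy
    rw [interior_Icc] at hy
    have hy0 : 0 < y := by have := hy.1; linarith
    rw [(hasDeriv0 hz hz' hy0 hy.2).deriv]
    exact f1_neg hz hz' hroot hy.1 hy.2

lemma f0_max {x : ℝ} (hx : x ∈ Set.Icc (0:ℝ) 1) : f0 z x ≤ f0 z z := by
  rcases le_total x z with h | h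
  · exact (f0_mono hz hz' hroot).monotoneOn ⟨hx.1, h⟩ ⟨by linarith, le_rfl⟩ h
  · exact (f0_anti hz hz' hroot).antitoneOn ⟨le_rfl, by linarith⟩ ⟨h, hx.2⟩ h

/-- quartic lower bound on the left of the maximum -/
lemma f0_quartic : ∃ C : ℝ, 0 < C ∧ ∀ x ∈ Set.Icc (z / 2) z,
    f0 z z - C * (x - z) ^ 4 ≤ f0 z x := by
  have hv := vv_pos hz hz'
  have hz0 : 0 < z := by linarith
  have hz1 : 0 < 1 - z := by linarith
  set Q : ℝ := (vv z ^ 3 * z + 1 / z ^ 2) / (z / 2 * (1 - z)) with hQ
  have hQpos : 0 < Q := by positivity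
  refine ⟨Q / 12, by positivity, ?_⟩
  have hbound : ∀ x ∈ Set.Icc (z / 2) z, -(Q * (x - z) ^ 2) ≤ f2 z x := by
    intro x hx
    have hx0 : 0 < x := by have := hx.1; linarith
    have hx1 : x < 1 := by have := hx.2; linarith
    rw [f2_eq hz hz' hx0 hx1]
    apply neg_le_neg
    have hd : 1 ≤ (1 + vv z * x) ^ 3 := by
      apply one_le_pow₀
      have : 0 ≤ vv z * x := by positivity
      linarith
    have hden : z / 2 * (1 - z) ≤ (1 + vv z * x) ^ 3 * (x * (1 - x)) := by
      have h1 : z / 2 * (1 - z) ≤ x * (1 - x) :=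
        mul_le_mul hx.1 (by linarith [hx.2]) hz1.le hx0.le
      have h2 : 0 ≤ x * (1 - x) := by have : 0 < 1 - x := by linarith
                                      positivity
      calc z / 2 * (1 - z) ≤ 1 * (x * (1 - x)) := by linarith
        _ ≤ _ := mul_le_mul_of_nonneg_right hd h2
    have hnum : vv z ^ 3 * x + 1 / z ^ 2 ≤ vv z ^ 3 * z + 1 / z ^ 2 := by
      have := hx.2
      gcongr
    have h3 : 0 < z / 2 * (1 - z) := by positivity
    rw [div_le_iff₀ (lt_of_lt_of_le h3 hden)]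
    have h4 : Q * (z / 2 * (1 - z)) = vv z ^ 3 * z + 1 / z ^ 2 := by
      rw [hQ]; field_simp
    calc (x - z) ^ 2 * (vv z ^ 3 * x + 1 / z ^ 2)
        ≤ (x - z) ^ 2 * (vv z ^ 3 * z + 1 / z ^ 2) := by gcongr
      _ = Q * (x - z) ^ 2 * (z / 2 * (1 - z)) := by rw [← h4]; ring
      _ ≤ Q * (x - z) ^ 2 * ((1 + vv z * x) ^ 3 * (x * (1 - x))) := by gcongr
  have hK1 : ∀ x ∈ Set.Icc (z / 2) z, HasDerivAt (fun x => f1 z x + Q / 3 * (x - z) ^ 3)
      (f2 z x + Q * (x - z) ^ 2) x := by
    intro x hx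
    have hx0 : 0 < x := by have := hx.1; linarith
    have hx1 : x < 1 := by have := hx.2; linarith
    have h1 := hasDeriv1 hz hz' hx0 hx1
    have h2 : HasDerivAt (fun x : ℝ => (x - z) ^ 3) (3 * (x - z) ^ 2) x := by
      have := ((hasDerivAt_id x).sub_const z).fun_pow 3
      simpa using this
    exact (h1.add (h2.const_mul (Q / 3))).congr_deriv (by ring)
  have hK0 : ∀ x ∈ Set.Icc (z / 2) z, HasDerivAt (fun x => f0 z x + Q / 12 * (x - z) ^ 4)
      (f1 z x + Q / 3 * (x - z) ^ 3) x := by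
    intro x hx
    have hx0 : 0 < x := by have := hx.1; linarith
    have hx1 : x < 1 := by have := hx.2; linarith
    have h1 := hasDeriv0 hz hz' hx0 hx1
    have h2 : HasDerivAt (fun x : ℝ => (x - z) ^ 4) (4 * (x - z) ^ 3) x := by
      have := ((hasDerivAt_id x).sub_const z).fun_pow 4
      simpa using this
    exact (h1.add (h2.const_mul (Q / 12))).congr_deriv (by ring)
  have hmono : MonotoneOn (fun x => f1 z x + Q / 3 * (x - z) ^ 3) (Set.Icc (z / 2) z) := by
    apply monotoneOn_of_deriv_nonneg (convex_Icc _ _)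
    · exact fun x hx => (hK1 x hx).continuousAt.continuousWithinAt
    · exact fun x hx => (hK1 x (interior_subset hx)).differentiableAt.differentiableWithinAt
    · intro x hx
      rw [(hK1 x (interior_subset hx)).deriv]
      linarith [hbound x (interior_subset hx)]
  have hanti : AntitoneOn (fun x => f0 z x + Q / 12 * (x - z) ^ 4) (Set.Icc (z / 2) z) := by
    apply antitoneOn_of_deriv_nonpos (convex_Icc _ _)
    · exact fun x hx => (hK0 x hx).continuousAt.continuousWithinAt
    · exact fun x hx => (hK0 x (interior_subset hx)).differentiableAt.differentiableWithinAt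
    · intro x hx
      have hx' := interior_subset hx
      rw [(hK0 x hx').deriv]
      have h1 := hmono hx' (Set.right_mem_Icc.2 (by linarith)) hx'.2
      simp only [f1_z hz hz' hroot, sub_self] at h1
      linarith
  intro x hx
  have h1 := hanti hx (Set.right_mem_Icc.2 (by linarith)) hx.2
  simp only [sub_self] at h1
  linarith

end

/-! ### The parameters `β, γ` -/

noncomputable def bb (z : ℝ) : ℝ := 2 * log 4 / cc z
noncomputable def gg (z : ℝ) : ℝ := (1 + vv z) * bb z

section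
variable {z : ℝ} (hz : 1 / 9 ≤ z) (hz' : z ≤ 1 / 7)
include hz hz'

lemma bb_ge : 9 / 4 ≤ bb z := by
  unfold bb
  have h1 := cc_pos hz hz'
  have h2 := cc_le hz hz'
  have h3 : log 4 = 2 * log 2 := by
    rw [show (4:ℝ) = 2 ^ 2 by norm_num, log_pow]; norm_num
  have hl2 := Real.log_two_gt_d9
  rw [le_div_iff₀ h1, h3]
  linarith

lemma bb_le_gg : bb z ≤ gg z := by
  unfold gg
  have := vv_pos hz hz'
  have := bb_ge hz hz'
  nlinarith

lemma G_eq (x : ℝ) : G (bb z) (gg z) x = cc z / 2 * ((1 - x) / (1 + vv z * x)) := by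
  unfold G gg
  have h0 := bb_ge hz hz'
  have h1 := cc_pos hz hz'
  have h2 : bb z + ((1 + vv z) * bb z - bb z) * x = bb z * (1 + vv z * x) := by ring
  rw [h2]
  have h3 : log 4 = cc z / 2 * bb z := by
    unfold bb; field_simp
  rw [h3]
  have h4 : bb z ≠ 0 := by positivity
  rw [show (1 - x) * (cc z / 2 * bb z) = bb z * (cc z / 2 * (1 - x)) by ring,
    mul_div_mul_left _ _ h4, mul_div_assoc]

lemma F_eq (x : ℝ) : binEntropy x + 2 * G (bb z) (gg z) x = f0 z x := by
  rw [G_eq hz hz']; unfold f0; ring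

lemma G_lower : ∃ κ : ℝ, 0 < κ ∧ ∀ x ∈ Set.Icc 0 z,
    G (bb z) (gg z) z + κ * (z - x) ≤ G (bb z) (gg z) x := by
  have hv := vv_pos hz hz'
  have hc := cc_pos hz hz'
  have hz0 : 0 < z := by linarith
  refine ⟨cc z / 2 * ((1 + vv z) / (1 + vv z * z) ^ 2), by positivity, fun x hx => ?_⟩
  rw [G_eq hz hz', G_eq hz hz']
  have hdx := den_pos' hz hz' hx.1
  have hdz := den_pos' hz hz' hz0.le
  have h1 : (1 - x) / (1 + vv z * x) - (1 - z) / (1 + vv z * z) =
      (z - x) * (1 + vv z) / ((1 + vv z * x) * (1 + vv z * z)) := by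
    rw [div_sub_div _ _ hdx.ne' hdz.ne']
    congr 1
    ring
  have h2 : (1 + vv z) / (1 + vv z * z) ^ 2 * (z - x) ≤
      (z - x) * (1 + vv z) / ((1 + vv z * x) * (1 + vv z * z)) := by
    rw [div_mul_eq_mul_div, mul_comm (1 + vv z) (z - x)]
    have h3 : 0 ≤ z - x := by linarith [hx.2]
    have h4 : (1 + vv z * x) * (1 + vv z * z) ≤ (1 + vv z * z) ^ 2 := by
      rw [sq]
      have := hx.2
      gcongr
    gcongr
  have h3 : cc z / 2 * ((1 - x) / (1 + vv z * x)) = cc z / 2 * ((1 - z) / (1 + vv z * z)) +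
      cc z / 2 * ((z - x) * (1 + vv z) / ((1 + vv z * x) * (1 + vv z * z))) := by
    rw [← h1]; ring
  rw [h3, mul_assoc]
  have : 0 < cc z / 2 := by positivity
  nlinarith [mul_le_mul_of_nonneg_left h2 this.le]

lemma G_cont : ContinuousOn (G (bb z) (gg z)) (Set.Icc 0 1) := by
  have : G (bb z) (gg z) = fun x => cc z / 2 * ((1 - x) / (1 + vv z * x)) :=
    funext fun x => G_eq hz hz' x
  rw [this]
  apply ContinuousOn.mul continuousOn_const
  apply ContinuousOn.div (by fun_prop) (by fun_prop)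
  intro x hx
  exact (den_pos' hz hz' hx.1).ne'

end

/-- The analysis of the cusp, collected. -/
theorem cusp : ∃ β γ z : ℝ, 9 / 4 ≤ β ∧ β ≤ γ ∧ 0 < z ∧ z < 1 ∧
    (∀ x ∈ Set.Icc (0:ℝ) 1, binEntropy x + 2 * G β γ x ≤ binEntropy z + 2 * G β γ z) ∧
    (∃ c l t1 : ℝ, 0 < c ∧ 0 < l ∧ 0 < t1 ∧ ∀ t, 0 < t → t < t1 → 0 < z - l * t ∧
      binEntropy z + 2 * G β γ z + t ^ 3 * G β γ z + c * t ^ 4 ≤
        binEntropy (z - l * t) + (2 + t ^ 3) * G β γ (z - l * t)) ∧
    (∀ η : ℝ, 0 < η → ∃ δ : ℝ, 0 < δ ∧ ∀ s, 0 < s → s < δ → ∀ x ∈ Set.Icc (0:ℝ) 1,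
      binEntropy x + (2 + s) * G β γ x ≤
        binEntropy z + 2 * G β γ z + s * (G β γ z + η)) := by
  obtain ⟨z, hz, hz', hroot⟩ := exists_root
  have hz0 : 0 < z := by linarith
  have hz1 : z < 1 := by linarith
  refine ⟨bb z, gg z, z, bb_ge hz hz', bb_le_gg hz hz', hz0, hz1, ?_, ?_, ?_⟩
  · intro x hx
    rw [F_eq hz hz', F_eq hz hz']
    exact f0_max hz hz' hroot hx
  · obtain ⟨C, hC, hq⟩ := f0_quartic hz hz' hroot
    obtain ⟨κ, hκ, hG⟩ := G_lower hz hz'
    set l : ℝ := min 1 (κ / (2 * C)) with hl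
    have hl0 : 0 < l := lt_min one_pos (by positivity)
    have hl1 : l ≤ 1 := min_le_left _ _
    have hl2 : l ≤ κ / (2 * C) := min_le_right _ _
    refine ⟨κ * l / 2, l, z / (2 * l), by positivity, hl0, by positivity, ?_⟩
    intro t ht htt
    rw [lt_div_iff₀ (by positivity)] at htt
    have hlt : l * t < z / 2 := by linarith
    have hlt0 : 0 < l * t := by positivity
    refine ⟨by linarith, ?_⟩
    have h1 := hq (z - l * t) ⟨by linarith, by linarith⟩
    have h2 := hG (z - l * t) ⟨by linarith, by linarith⟩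
    have h3 := F_eq hz hz' z
    have h4 := F_eq hz hz' (z - l * t)
    have h5 : C * l ^ 4 ≤ κ * l / 2 := by
      have h6 : C * l ≤ κ / 2 := by
        rw [le_div_iff₀ (by positivity)] at hl2
        linarith
      have h7 : l ^ 2 ≤ 1 := pow_le_one₀ hl0.le hl1
      have h8 : 0 ≤ C * l ^ 2 := by positivity
      calc C * l ^ 4 = (C * l ^ 2) * l ^ 2 := by ring
        _ ≤ (C * l ^ 2) * 1 := by gcongr
        _ = (C * l) * l := by ring
        _ ≤ (κ / 2) * l := by gcongr
        _ = κ * l / 2 := by ring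
    have e1 : z - l * t - z = -(l * t) := by ring
    have e2 : z - (z - l * t) = l * t := by ring
    rw [e1] at h1
    rw [e2] at h2
    have h9 : C * (-(l * t)) ^ 4 = C * l ^ 4 * t ^ 4 := by ring
    rw [h9] at h1
    have h10 : C * l ^ 4 * t ^ 4 ≤ κ * l / 2 * t ^ 4 := by gcongr
    have h11 : t ^ 3 * (G (bb z) (gg z) z + κ * (l * t)) ≤ t ^ 3 * G (bb z) (gg z) (z - l * t) := by
      gcongr
    have h12 : t ^ 3 * (κ * (l * t)) = κ * l * t ^ 4 := by ring
    have h13 : binEntropy (z - l * t) + (2 + t ^ 3) * G (bb z) (gg z) (z - l * t) =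
      (binEntropy (z - l * t) + 2 * G (bb z) (gg z) (z - l * t)) +
        t ^ 3 * G (bb z) (gg z) (z - l * t) := by ring
    rw [h13, h4, h3]
    nlinarith
  · intro η hη
    have hGc : ContinuousAt (G (bb z) (gg z)) z :=
      (G_cont hz hz').continuousAt (Icc_mem_nhds hz0 hz1)
    have h1 : ∀ᶠ x in 𝓝 z, G (bb z) (gg z) x < G (bb z) (gg z) z + η :=
      hGc.eventually (gt_mem_nhds (by linarith))
    obtain ⟨ε, hε, hball⟩ := Metric.eventually_nhds_iff.1 h1
    set e : ℝ := min (ε / 2) (z / 2) with he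
    have he0 : 0 < e := lt_min (by linarith) (by linarith)
    have he1 : e ≤ ε / 2 := min_le_left _ _
    have he2 : e ≤ z / 2 := min_le_right _ _
    set m : ℝ := max (f0 z (z - e)) (f0 z (z + e)) with hm
    have hmlt : m < f0 z z := by
      apply max_lt
      · exact f0_mono hz hz' hroot ⟨by linarith, by linarith⟩ ⟨by linarith, le_rfl⟩ (by linarith)
      · exact f0_anti hz hz' hroot ⟨le_rfl, by linarith⟩ ⟨by linarith, by linarith⟩ (by linarith)
    have hb0 : 0 < bb z := by have := bb_ge hz hz'; linarith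
    have hGm : 0 < log 4 / bb z := by have := log4_pos; positivity
    refine ⟨(f0 z z - m) / (log 4 / bb z), by have : 0 < f0 z z - m := by linarith
                                              positivity, ?_⟩
    intro s hs hsd x hx
    rw [lt_div_iff₀ hGm] at hsd
    have h3 := F_eq hz hz' z
    have h4 := F_eq hz hz' x
    have h5 : binEntropy x + (2 + s) * G (bb z) (gg z) x = f0 z x + s * G (bb z) (gg z) x := by
      rw [← h4]; ring
    rw [h5, h3]
    have hGx := G_le hb0 (bb_le_gg hz hz') hx.1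
    have hGz := G_nonneg hb0 (bb_le_gg hz hz') hz0.le hz1.le
    have hfar : f0 z x ≤ m → f0 z x + s * G (bb z) (gg z) x ≤
        f0 z z + s * (G (bb z) (gg z) z + η) := by
      intro h
      have h6 : s * G (bb z) (gg z) x ≤ s * (log 4 / bb z) := by gcongr
      have h7 : 0 ≤ s * (G (bb z) (gg z) z + η) := by positivity
      linarith
    rcases le_or_gt x (z - e) with h | h
    · apply hfar
      refine le_trans ?_ (le_max_left _ _)
      exact (f0_mono hz hz' hroot).monotoneOn ⟨hx.1, by linarith⟩ ⟨by linarith, by linarith⟩ h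
    · rcases le_or_gt (z + e) x with h' | h'
      · apply hfar
        refine le_trans ?_ (le_max_right _ _)
        exact (f0_anti hz hz' hroot).antitoneOn ⟨by linarith, by linarith⟩ ⟨by linarith, hx.2⟩ h'
      · have h6 : G (bb z) (gg z) x < G (bb z) (gg z) z + η := by
          apply hball
          rw [Real.dist_eq, abs_lt]
          constructor <;> linarith
        have h7 := f0_max hz hz' hroot hx
        have h8 : s * G (bb z) (gg z) x ≤ s * (G (bb z) (gg z) z + η) := by gcongr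
        linarith

end Pool.Agent.Bar
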