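import Mathlib

open MeasureTheory Filter Topology

namespace Pool.Agent.Bar

/-- Indicator of the symbol 0. -/
def T (d : Fin 5) : ℕ := if d = 0 then 1 else 0

/-- Number of zeros among the first `n` symbols. -/
def N (ω : ℕ → Fin 5) (n : ℕ) : ℕ := ∑ i ∈ Finset.range n, T (ω i)

lemma N_zero (ω : ℕ → Fin 5) : N ω 0 = 0 := by simp [N]

lemma N_succ (ω : ℕ → Fin 5) (n : ℕ) : N ω (n + 1) = N ω n + T (ω n) := by
  simp [N, Finset.sum_range_succ]

lemma T_le (d : Fin 5) : T d ≤ 1 := by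
  unfold T; split_ifs <;> simp

lemma N_le (ω : ℕ → Fin 5) (n : ℕ) : N ω n ≤ n := by
  induction n with
  | zero => simp [N_zero]
  | succ n ih => rw [N_succ]; have := T_le (ω n); omega

/-- The exponent of the contraction in the strong direction. -/
noncomputable def V (β γ : ℝ) (ω : ℕ → Fin 5) (m : ℕ) : ℝ := β * m + (γ - β) * N ω m

lemma V_zero (β γ : ℝ) (ω : ℕ → Fin 5) : V β γ ω 0 = 0 := by simp [V, N_zero]

lemma V_succ (β γ : ℝ) (ω : ℕ → Fin 5) (m : ℕ) :
    V β γ ω (m + 1) = V β γ ω m + (β + (γ - β) * T (ω m)) := by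
  unfold V; rw [N_succ]; push_cast; ring

variable {α β γ : ℝ}

lemma V_succ_ge (h2 : β ≤ γ) (ω : ℕ → Fin 5) (m : ℕ) :
    V β γ ω m + β ≤ V β γ ω (m + 1) := by
  rw [V_succ]
  have : (0:ℝ) ≤ T (ω m) := by positivity
  nlinarith

lemma V_succ_le (h2 : β ≤ γ) (ω : ℕ → Fin 5) (m : ℕ) :
    V β γ ω (m + 1) ≤ V β γ ω m + γ := by
  rw [V_succ]
  have : (T (ω m) : ℝ) ≤ 1 := by exact_mod_cast T_le (ω m)
  nlinarith

lemma V_mono (hb : 0 ≤ β) (h2 : β ≤ γ) (ω : ℕ → Fin 5) : Monotone (V β γ ω) := by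
  refine monotone_nat_of_le_succ fun n => ?_
  have := V_succ_ge h2 ω n
  linarith

lemma V_ge (h2 : β ≤ γ) (ω : ℕ → Fin 5) (m : ℕ) : β * m ≤ V β γ ω m := by
  unfold V
  have : (0:ℝ) ≤ N ω m := by positivity
  nlinarith

lemma V_le (h2 : β ≤ γ) (ω : ℕ → Fin 5) (m : ℕ) : V β γ ω m ≤ γ * m := by
  unfold V
  have : (N ω m : ℝ) ≤ m := by exact_mod_cast N_le ω m
  nlinarith

open Classical in
/-- The number of symbols seen at scale `exp (-α n)` in the strong direction. -/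
noncomputable def ell (α β γ : ℝ) (ω : ℕ → Fin 5) (n : ℕ) : ℕ :=
  Nat.findGreatest (fun m => V β γ ω m ≤ α * n) n

lemma ell_le (α β γ : ℝ) (ω : ℕ → Fin 5) (n : ℕ) : ell α β γ ω n ≤ n := by
  classical
  exact Nat.findGreatest_le n

lemma V_ell_le (ha : 0 ≤ α) (ω : ℕ → Fin 5) (n : ℕ) :
    V β γ ω (ell α β γ ω n) ≤ α * n := by
  classical
  exact Nat.findGreatest_spec (P := fun m => V β γ ω m ≤ α * n) (Nat.zero_le n)
    (by rw [V_zero]; positivity)

lemma lt_ell_iff (ha : 0 < α) (h1 : α ≤ β) (h2 : β ≤ γ) (ω : ℕ → Fin 5) (n i : ℕ) :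
    i < ell α β γ ω n ↔ V β γ ω (i + 1) ≤ α * n := by
  classical
  constructor
  · intro h
    exact (V_mono (by linarith) h2 ω h).trans (V_ell_le ha.le ω n)
  · intro h
    have h3 : i + 1 ≤ n := by
      have := V_ge h2 ω (i + 1)
      have h4 : α * ((i + 1 : ℕ) : ℝ) ≤ α * n := by
        refine le_trans ?_ (this.trans h)
        gcongr
      have := le_of_mul_le_mul_left h4 ha
      exact_mod_cast this
    exact Nat.le_findGreatest h3 h

lemma lt_V_ell_succ (ha : 0 < α) (h1 : α ≤ β) (h2 : β ≤ γ) (ω : ℕ → Fin 5) (n : ℕ) :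
    α * n < V β γ ω (ell α β γ ω n + 1) := by
  by_contra h
  push Not at h
  exact lt_irrefl _ ((lt_ell_iff ha h1 h2 ω n _).2 h)

lemma ell_eq_of (ha : 0 < α) (h1 : α ≤ β) (h2 : β ≤ γ) (ω : ℕ → Fin 5) (n m : ℕ)
    (h3 : V β γ ω m ≤ α * n) (h4 : α * n < V β γ ω (m + 1)) : ell α β γ ω n = m := by
  apply le_antisymm
  · by_contra h
    push Not at h
    have := (lt_ell_iff ha h1 h2 ω n m).1 h
    linarith
  · rcases Nat.eq_zero_or_pos m with rfl | hm
    · exact Nat.zero_le _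
    · obtain ⟨k, rfl⟩ : ∃ k, m = k + 1 := ⟨m - 1, by omega⟩
      exact (lt_ell_iff ha h1 h2 ω n k).2 h3

open Classical in
/-- The label of the level `n` approximate square of `ω`. -/
noncomputable def lab (α β γ : ℝ) (ω : ℕ → Fin 5) (n : ℕ) : Fin n → Fin 5 :=
  fun i => if V β γ ω (i + 1) ≤ α * n then ω i else if ω i = 0 then 0 else 1

lemma T_eq_iff (a b : Fin 5) : T a = T b ↔ (a = 0 ↔ b = 0) := by
  unfold T; split_ifs <;> simp_all

lemma lab_eq_zero_iff (α β γ : ℝ) (ω : ℕ → Fin 5) (n : ℕ) (i : Fin n) :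
    lab α β γ ω n i = 0 ↔ ω i = 0 := by
  unfold lab; split_ifs <;> simp_all

lemma N_congr {ω ω' : ℕ → Fin 5} {n : ℕ} (h : ∀ i < n, T (ω i) = T (ω' i)) {m : ℕ} (hm : m ≤ n) :
    N ω m = N ω' m := by
  unfold N
  refine Finset.sum_congr rfl fun i hi => h i ?_
  have := Finset.mem_range.1 hi
  omega

lemma lab_eq_iff (ha : 0 < α) (h1 : α ≤ β) (h2 : β ≤ γ) (ω ω' : ℕ → Fin 5) (n : ℕ) :
    lab α β γ ω' n = lab α β γ ω n ↔
      (∀ i < n, T (ω' i) = T (ω i)) ∧ ∀ i < ell α β γ ω n, ω' i = ω i := by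
  constructor
  · intro h
    have hT : ∀ i < n, T (ω' i) = T (ω i) := by
      intro i hi
      rw [T_eq_iff, ← lab_eq_zero_iff α β γ ω' n ⟨i, hi⟩, ← lab_eq_zero_iff α β γ ω n ⟨i, hi⟩, h]
    refine ⟨hT, fun i hi => ?_⟩
    have hin : i < n := lt_of_lt_of_le hi (ell_le _ _ _ _ _)
    have h3 := (lt_ell_iff ha h1 h2 ω n i).1 hi
    have h4 : V β γ ω' (i + 1) = V β γ ω (i + 1) := by
      unfold V; rw [N_congr hT (by omega)]
    have h5 := congrFun h ⟨i, hin⟩
    simp only [lab, h4, h3, if_true] at h5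
    exact h5
  · rintro ⟨hT, hE⟩
    funext i
    have h4 : V β γ ω' (i + 1) = V β γ ω (i + 1) := by
      unfold V; rw [N_congr hT (by have := i.2; omega)]
    simp only [lab, h4]
    split_ifs with h5 h6 h7 h7
    · exact hE i ((lt_ell_iff ha h1 h2 ω n i).2 h5)
    · rfl
    · exact absurd (((T_eq_iff _ _).1 (hT i i.2)).1 h6) h7
    · exact absurd (((T_eq_iff _ _).1 (hT i i.2)).2 h7) h6
    · rfl

/-- The symbolic level `n` approximate square. -/
def B (α β γ : ℝ) (ω : ℕ → Fin 5) (n : ℕ) : Set (ℕ → Fin 5) :=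
  {ω' | lab α β γ ω' n = lab α β γ ω n}

lemma mem_B_self (ω : ℕ → Fin 5) (n : ℕ) : ω ∈ B α β γ ω n := rfl

open Classical in
/-- Coordinate sets of the approximate square. -/
noncomputable def Sset (α β γ : ℝ) (ω : ℕ → Fin 5) (n : ℕ) (i : ℕ) : Set (Fin 5) :=
  if i < ell α β γ ω n then {ω i} else if ω i = 0 then {0} else {0}ᶜ

lemma B_eq_pi (ha : 0 < α) (h1 : α ≤ β) (h2 : β ≤ γ) (ω : ℕ → Fin 5) (n : ℕ) :
    B α β γ ω n = Set.pi (Finset.range n : Finset ℕ) (Sset α β γ ω n) := by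
  ext ω'
  simp only [B, Set.mem_ofPred_eq, lab_eq_iff ha h1 h2, Set.mem_pi, Finset.coe_range, Set.mem_Iio]
  constructor
  · rintro ⟨hT, hE⟩ i hi
    unfold Sset
    split_ifs with h3 h4
    · exact hE i h3
    · exact ((T_eq_iff _ _).1 (hT i hi)).2 h4
    · exact fun h5 => h4 (((T_eq_iff _ _).1 (hT i hi)).1 h5)
  · intro h
    refine ⟨fun i hi => ?_, fun i hi => ?_⟩
    · have h3 := h i hi
      unfold Sset at h3
      rw [T_eq_iff]
      split_ifs at h3 with h4 h5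
      · rw [Set.mem_singleton_iff] at h3; rw [h3]
      · rw [Set.mem_singleton_iff] at h3; simp [h3, h5]
      · simp only [Set.mem_compl_iff, Set.mem_singleton_iff] at h3; simp [h3, h5]
    · have h3 := h i (lt_of_lt_of_le hi (ell_le _ _ _ _ _))
      unfold Sset at h3
      rw [if_pos hi] at h3
      exact h3

/-- The weights of the one-parameter family. -/
noncomputable def w (q : ℝ) (j : Fin 5) : ℝ := if j = 0 then q else (1 - q) / 4

/-- The probability vector as a measure. -/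
noncomputable def p (q : ℝ) : Measure (Fin 5) := ∑ j, ENNReal.ofReal (w q j) • Measure.dirac j

lemma w_nonneg {q : ℝ} (h0 : 0 ≤ q) (h1 : q ≤ 1) (j : Fin 5) : 0 ≤ w q j := by
  unfold w; split_ifs <;> linarith

lemma p_apply {q : ℝ} (h0 : 0 ≤ q) (h1 : q ≤ 1) (s : Set (Fin 5)) [DecidablePred (· ∈ s)] :
    p q s = ENNReal.ofReal (∑ j, if j ∈ s then w q j else 0) := by
  unfold p
  rw [ENNReal.ofReal_sum_of_nonneg]
  · simp only [Measure.coe_finsetSum, Finset.sum_apply,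
      Measure.coe_smul, Pi.smul_apply, smul_eq_mul]
    refine Finset.sum_congr rfl fun j _ => ?_
    rw [Measure.dirac_apply' _ (Set.toFinite s).measurableSet]
    by_cases h : j ∈ s
    · simp [h]
    · simp [h]
  · intro j _
    split_ifs
    · exact w_nonneg h0 h1 j
    · exact le_rfl

lemma p_univ {q : ℝ} (h0 : 0 ≤ q) (h1 : q ≤ 1) : p q Set.univ = 1 := by
  classical
  rw [p_apply h0 h1]
  have : (∑ j : Fin 5, if j ∈ (Set.univ : Set (Fin 5)) then w q j else 0) = 1 := by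
    simp only [Set.mem_univ, if_true, Fin.sum_univ_five, w]
    simp
    ring
  rw [this]; simp

lemma isProb_p {q : ℝ} (h0 : 0 ≤ q) (h1 : q ≤ 1) : IsProbabilityMeasure (p q) :=
  ⟨p_univ h0 h1⟩

lemma p_singleton {q : ℝ} (h0 : 0 ≤ q) (h1 : q ≤ 1) (j : Fin 5) :
    p q {j} = ENNReal.ofReal (w q j) := by
  classical
  rw [p_apply h0 h1]
  congr 1
  simp

lemma p_compl {q : ℝ} (h0 : 0 ≤ q) (h1 : q ≤ 1) :
    p q {0}ᶜ = ENNReal.ofReal (1 - q) := by
  classical
  rw [p_apply h0 h1]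
  congr 1
  simp only [Set.mem_compl_iff, Set.mem_singleton_iff, Fin.sum_univ_five, w]
  simp
  ring

/-- The real number `q ^ N (1 - q) ^ (n - N) 4 ^ (-(ℓ - N ℓ))`. -/
noncomputable def mB (α β γ q : ℝ) (ω : ℕ → Fin 5) (n : ℕ) : ℝ :=
  q ^ N ω n * (1 - q) ^ (n - N ω n) * (1 / 4) ^ (ell α β γ ω n - N ω (ell α β γ ω n))

lemma prod_T (q : ℝ) (ω : ℕ → Fin 5) (n : ℕ) :
    ∏ i ∈ Finset.range n, (if ω i = 0 then q else 1 - q) = q ^ N ω n * (1 - q) ^ (n - N ω n) := by
  induction n with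
  | zero => simp [N_zero]
  | succ n ih =>
    rw [Finset.prod_range_succ, ih, N_succ]
    have := N_le ω n
    unfold T
    split_ifs with h
    · rw [show n + 1 - (N ω n + 1) = n - N ω n by omega, pow_succ]; ring
    · rw [show n + 1 - (N ω n + 0) = (n - N ω n) + 1 by omega, pow_succ]; simp; ring

lemma prod_Q (ω : ℕ → Fin 5) (n : ℕ) :
    ∏ i ∈ Finset.range n, (if ω i = 0 then (1:ℝ) else 1 / 4) = (1 / 4) ^ (n - N ω n) := by
  induction n with
  | zero => simp [N_zero]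
  | succ n ih =>
    rw [Finset.prod_range_succ, ih, N_succ]
    have := N_le ω n
    unfold T
    split_ifs with h
    · rw [show n + 1 - (N ω n + 1) = n - N ω n by omega]; ring
    · rw [show n + 1 - (N ω n + 0) = (n - N ω n) + 1 by omega, pow_succ]

lemma measure_B (ha : 0 < α) (h1 : α ≤ β) (h2 : β ≤ γ) {q : ℝ} (h0 : 0 ≤ q) (hq1 : q ≤ 1)
    (ω : ℕ → Fin 5) (n : ℕ) :
    Measure.infinitePi (fun _ : ℕ => p q) (B α β γ ω n) = ENNReal.ofReal (mB α β γ q ω n) := by
  classical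
  have := isProb_p h0 hq1
  rw [B_eq_pi ha h1 h2, Measure.infinitePi_pi]
  · have h3 : ∀ i, p q (Sset α β γ ω n i) = ENNReal.ofReal
        ((if ω i = 0 then q else 1 - q) *
          (if i < ell α β γ ω n then (if ω i = 0 then (1:ℝ) else 1 / 4) else 1)) := by
      intro i
      unfold Sset
      split_ifs with h3 h4 h4
      · rw [p_singleton h0 hq1, w, if_pos h4]; simp
      · rw [p_singleton h0 hq1, w, if_neg h4]; congr 1; ring
      · rw [p_singleton h0 hq1, w, if_pos rfl]; simp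
      · rw [p_compl h0 hq1]; simp
    simp only [h3]
    rw [← ENNReal.ofReal_prod_of_nonneg]
    · congr 1
      rw [Finset.prod_mul_distrib, prod_T, mB]
      congr 1
      rw [← prod_Q, Finset.prod_ite, Finset.prod_const_one, mul_one]
      refine Finset.prod_congr ?_ fun _ _ => rfl
      ext i
      simp only [Finset.mem_filter, Finset.mem_range]
      have := ell_le α β γ ω n
      constructor
      · exact fun h => h.2
      · exact fun h => ⟨by omega, h⟩
    · intro i _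
      apply mul_nonneg
      · split_ifs <;> linarith
      · split_ifs <;> norm_num
  · intro i _
    exact (Set.toFinite _).measurableSet

lemma measurableSet_B (ha : 0 < α) (h1 : α ≤ β) (h2 : β ≤ γ) (ω : ℕ → Fin 5) (n : ℕ) :
    MeasurableSet (B α β γ ω n) := by
  rw [B_eq_pi ha h1 h2]
  exact MeasurableSet.pi (Set.to_countable _) fun i _ => (Set.toFinite _).measurableSet

end Pool.Agent.Bar
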