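import Pool.Agent.Bar.Sym

open MeasureTheory Filter Topology Real

namespace Pool.Agent.Bar

variable {α β γ : ℝ}

/-- frequency of zeros -/
noncomputable def y (ω : ℕ → Fin 5) (n : ℕ) : ℝ := (N ω n : ℝ) / n

lemma y_nonneg (ω : ℕ → Fin 5) (n : ℕ) : 0 ≤ y ω n := by unfold y; positivity

lemma y_le_one (ω : ℕ → Fin 5) (n : ℕ) : y ω n ≤ 1 := by
  unfold y
  apply div_le_one_of_le₀
  · exact_mod_cast N_le ω n
  · positivity

/-- The conditional entropy over the Lyapunov exponent. -/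
noncomputable def G (β γ : ℝ) (x : ℝ) : ℝ := (1 - x) * log 4 / (β + (γ - β) * x)

lemma den_pos (hb : 0 < β) (h2 : β ≤ γ) {x : ℝ} (hx : 0 ≤ x) : 0 < β + (γ - β) * x := by
  nlinarith [mul_nonneg (sub_nonneg.2 h2) hx]

lemma log4_pos : 0 < log 4 := log_pos (by norm_num)

lemma G_nonneg (hb : 0 < β) (h2 : β ≤ γ) {x : ℝ} (hx : 0 ≤ x) (hx1 : x ≤ 1) : 0 ≤ G β γ x := by
  unfold G
  have := den_pos hb h2 hx
  have := log4_pos
  have : 0 ≤ 1 - x := by linarith
  positivity

lemma entropy_pow (n k : ℕ) (hk : k ≤ n) (hn : 0 < n) :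
    ((k:ℝ) / n) ^ k * (1 - (k:ℝ) / n) ^ (n - k) = exp (-(n * binEntropy ((k:ℝ) / n))) := by
  have hn' : (n:ℝ) ≠ 0 := by positivity
  have e1 : 1 - (k:ℝ) / n = ((n - k : ℕ) : ℝ) / n := by
    rw [Nat.cast_sub hk]; field_simp
  have aux : ∀ m : ℕ, ((m:ℝ) / n) ^ m = exp (-(n * ((m:ℝ) / n * log (((m:ℝ) / n)⁻¹)))) := by
    intro m
    rcases Nat.eq_zero_or_pos m with rfl | hm
    · simp
    · have : 0 < (m:ℝ) / n := by positivity
      rw [log_inv, ← Real.rpow_natCast, Real.rpow_def_of_pos this]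
      congr 1
      field_simp
  rw [e1, aux, aux, ← exp_add, binEntropy, e1]
  congr 1
  ring

lemma ell_bound (ha : 0 < α) (h1 : α ≤ β) (h2 : β ≤ γ) (ω : ℕ → Fin 5) (n : ℕ) :
    ((ell α β γ ω n - N ω (ell α β γ ω n) : ℕ) : ℝ) * log 4 ≤
      α * n * G β γ (y ω (ell α β γ ω n)) := by
  set m := ell α β γ ω n with hm
  have hV : V β γ ω m ≤ α * n := V_ell_le ha.le ω n
  have hb : 0 < β := by linarith
  rcases Nat.eq_zero_or_pos m with h0 | hpos
  · rw [h0]
    have := G_nonneg hb h2 (y_nonneg ω 0) (y_le_one ω 0)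
    simp only [N_zero, Nat.sub_self, Nat.cast_zero, zero_mul]
    positivity
  · have hm' : (m:ℝ) ≠ 0 := by positivity
    have hm0 : (0:ℝ) < m := by positivity
    have e1 : V β γ ω m = m * (β + (γ - β) * y ω m) := by
      unfold V y; field_simp
    have hden := den_pos hb h2 (y_nonneg ω m)
    have e2 : ((m - N ω m : ℕ) : ℝ) = m * (1 - y ω m) := by
      rw [Nat.cast_sub (N_le ω m)]; unfold y; field_simp
    rw [e2]
    unfold G
    rw [mul_div_assoc', le_div_iff₀ hden]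
    have h3 : m * (β + (γ - β) * y ω m) ≤ α * n := by rw [← e1]; exact hV
    have h4 : 0 ≤ (1 - y ω m) * log 4 :=
      mul_nonneg (by linarith [y_le_one ω m]) log4_pos.le
    nlinarith [mul_le_mul_of_nonneg_right h3 h4]

/-- The lower bound for the mass of the approximate square for the right Bernoulli measure. -/
lemma mB_ge (ha : 0 < α) (h1 : α ≤ β) (h2 : β ≤ γ) (ω : ℕ → Fin 5) (n : ℕ) (hn : 0 < n) :
    exp (-(n * (binEntropy (y ω n) + α * G β γ (y ω (ell α β γ ω n))))) ≤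
      mB α β γ ((N ω n : ℝ) / n) ω n := by
  unfold mB
  rw [entropy_pow n (N ω n) (N_le ω n) hn]
  have e1 : ((1:ℝ) / 4) ^ (ell α β γ ω n - N ω (ell α β γ ω n)) =
      exp (-(((ell α β γ ω n - N ω (ell α β γ ω n) : ℕ) : ℝ) * log 4)) := by
    rw [← Real.rpow_natCast, Real.rpow_def_of_pos (by norm_num), one_div, log_inv]
    congr 1; ring
  rw [e1, ← exp_add]
  apply exp_le_exp.2
  have := ell_bound ha h1 h2 ω n
  have e2 : (N ω n : ℝ) / n = y ω n := rfl
  rw [e2]
  nlinarith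

/-- Good level. -/
def Good (α β γ ε : ℝ) (ω : ℕ → Fin 5) (n : ℕ) : Prop :=
  binEntropy (y ω n) ≤ binEntropy (y ω (ell α β γ ω n)) + ε

lemma exists_good (ha : 0 < α) (h1 : α ≤ β) (h2 : β ≤ γ) {ε : ℝ} (hε : 0 < ε)
    (ω : ℕ → Fin 5) (N0 : ℕ) : ∃ n, N0 ≤ n ∧ 0 < n ∧ Good α β γ ε ω n := by
  by_contra hcon
  push Not at hcon
  let f : ℕ → ℕ := fun m => ⌈V β γ ω m / α⌉₊
  have hVn : ∀ m, 0 ≤ V β γ ω m := fun m =>
    (mul_nonneg (by linarith) (Nat.cast_nonneg m)).trans (V_ge h2 ω m)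
  have hell : ∀ m, ell α β γ ω (f m) = m := by
    intro m
    apply ell_eq_of ha h1 h2
    · have : V β γ ω m / α ≤ (f m : ℝ) := Nat.le_ceil _
      rw [div_le_iff₀ ha] at this
      linarith
    · have : (f m : ℝ) < V β γ ω m / α + 1 := Nat.ceil_lt_add_one (by have := hVn m; positivity)
      have h3 : α * (f m : ℝ) < α * (V β γ ω m / α + 1) := mul_lt_mul_of_pos_left this ha
      have h4 : α * (V β γ ω m / α + 1) = V β γ ω m + α := by field_simp
      have h5 := V_succ_ge h2 ω m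
      linarith
  have hge : ∀ m, m ≤ f m := by
    intro m
    have := ell_le α β γ ω (f m)
    rw [hell] at this
    exact this
  have key : ∀ k : ℕ, max N0 1 ≤ f^[k] (max N0 1) ∧
      k * ε ≤ binEntropy (y ω (f^[k] (max N0 1))) := by
    intro k
    induction k with
    | zero =>
      refine ⟨le_rfl, ?_⟩
      simp only [Nat.cast_zero, zero_mul]
      exact binEntropy_nonneg (y_nonneg _ _) (y_le_one _ _)
    | succ k ih =>
      rw [Function.iterate_succ_apply']
      refine ⟨ih.1.trans (hge _), ?_⟩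
      have h3 := hcon (f (f^[k] (max N0 1))) ((le_max_left _ _).trans (ih.1.trans (hge _)))
        (lt_of_lt_of_le (by simp) (ih.1.trans (hge _)))
      unfold Good at h3
      rw [hell] at h3
      push Not at h3
      push_cast
      linarith [ih.2]
  obtain ⟨k, hk⟩ := exists_nat_gt (log 2 / ε)
  have h3 := (key k).2
  have h4 : binEntropy (y ω (f^[k] (max N0 1))) ≤ log 2 := binEntropy_le_log_two
  rw [div_lt_iff₀ hε] at hk
  linarith

open Classical in
/-- Labels of good approximate squares at level `n`. -/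
noncomputable def Lbl (α β γ ε : ℝ) (n : ℕ) : Finset (Fin n → Fin 5) :=
  Finset.univ.filter fun L => ∃ ω, Good α β γ ε ω n ∧ lab α β γ ω n = L

open Classical in
noncomputable def Lblk (α β γ ε : ℝ) (n k : ℕ) : Finset (Fin n → Fin 5) :=
  Finset.univ.filter fun L => ∃ ω, Good α β γ ε ω n ∧ N ω n = k ∧ lab α β γ ω n = L

lemma card_Lblk (ha : 0 < α) (h1 : α ≤ β) (h2 : β ≤ γ) {ε S : ℝ}
    (hS : ∀ x ∈ Set.Icc (0:ℝ) 1, binEntropy x + α * G β γ x ≤ α * S)
    {n : ℕ} (hn : 0 < n) (k : ℕ) (hk : k ≤ n) :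
    ((Lblk α β γ ε n k).card : ℝ) ≤ exp (n * (α * S + ε)) := by
  classical
  have hq0 : 0 ≤ (k:ℝ) / n := by positivity
  have hq1 : (k:ℝ) / n ≤ 1 := by
    apply div_le_one_of_le₀ <;> [exact_mod_cast hk; positivity]
  have := isProb_p hq0 hq1
  set ν := Measure.infinitePi (fun _ : ℕ => p ((k:ℝ) / n)) with hν
  set F : (Fin n → Fin 5) → Set (ℕ → Fin 5) := fun L => {ω | lab α β γ ω n = L} with hF
  have hFB : ∀ ω, F (lab α β γ ω n) = B α β γ ω n := fun ω => rfl
  have hmem : ∀ L ∈ Lblk α β γ ε n k, ∃ ω, Good α β γ ε ω n ∧ N ω n = k ∧ lab α β γ ω n = L := by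
    intro L hL
    simpa [Lblk] using hL
  have hlow : ∀ L ∈ Lblk α β γ ε n k, ENNReal.ofReal (exp (-(n * (α * S + ε)))) ≤ ν (F L) := by
    intro L hL
    obtain ⟨ω, hg, hN, rfl⟩ := hmem L hL
    rw [hFB, hν, measure_B ha h1 h2 hq0 hq1]
    apply ENNReal.ofReal_le_ofReal
    have h3 := mB_ge ha h1 h2 ω n hn
    rw [hN] at h3
    refine le_trans ?_ h3
    apply exp_le_exp.2
    apply neg_le_neg
    apply mul_le_mul_of_nonneg_left _ (by positivity)
    have h4 := hS (y ω (ell α β γ ω n)) ⟨y_nonneg _ _, y_le_one _ _⟩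
    unfold Good at hg
    linarith
  have hmeas : ∀ L ∈ Lblk α β γ ε n k, MeasurableSet (F L) := by
    intro L hL
    obtain ⟨ω, hg, hN, rfl⟩ := hmem L hL
    exact measurableSet_B ha h1 h2 ω n
  have hdisj : Set.PairwiseDisjoint (↑(Lblk α β γ ε n k)) F := by
    intro L _ L' _ hne
    rw [Function.onFun, Set.disjoint_left]
    intro ω h3 h4
    exact hne (h3.symm.trans h4)
  have hsum : ∑ L ∈ Lblk α β γ ε n k, ν (F L) ≤ 1 := by
    rw [← measure_biUnion_finset hdisj hmeas]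
    exact prob_le_one
  have h5 : ((Lblk α β γ ε n k).card : ENNReal) * ENNReal.ofReal (exp (-(n * (α * S + ε)))) ≤ 1 := by
    refine le_trans ?_ hsum
    rw [← nsmul_eq_mul]
    exact Finset.card_nsmul_le_sum _ _ _ hlow
  rw [← ENNReal.ofReal_natCast, ← ENNReal.ofReal_mul (by positivity),
    ENNReal.ofReal_le_one] at h5
  rw [exp_neg] at h5
  have h6 := exp_pos (n * (α * S + ε))
  rwa [← div_eq_mul_inv, div_le_one h6] at h5

lemma card_Lbl (ha : 0 < α) (h1 : α ≤ β) (h2 : β ≤ γ) {ε S : ℝ}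
    (hS : ∀ x ∈ Set.Icc (0:ℝ) 1, binEntropy x + α * G β γ x ≤ α * S)
    {n : ℕ} (hn : 0 < n) :
    ((Lbl α β γ ε n).card : ℝ) ≤ (n + 1) * exp (n * (α * S + ε)) := by
  classical
  have h3 : Lbl α β γ ε n ⊆ (Finset.range (n + 1)).biUnion (Lblk α β γ ε n) := by
    intro L hL
    simp only [Lbl, Finset.mem_filter, Finset.mem_univ, true_and] at hL
    obtain ⟨ω, hg, hL⟩ := hL
    simp only [Lblk, Finset.mem_biUnion, Finset.mem_range, Finset.mem_filter, Finset.mem_univ,
      true_and]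
    exact ⟨N ω n, by have := N_le ω n; omega, ω, hg, rfl, hL⟩
  have h4 : (Lbl α β γ ε n).card ≤ ∑ k ∈ Finset.range (n + 1), (Lblk α β γ ε n k).card :=
    (Finset.card_le_card h3).trans Finset.card_biUnion_le
  calc ((Lbl α β γ ε n).card : ℝ) ≤ ∑ k ∈ Finset.range (n + 1), ((Lblk α β γ ε n k).card : ℝ) := by
        exact_mod_cast h4
    _ ≤ ∑ k ∈ Finset.range (n + 1), exp (n * (α * S + ε)) := by
        refine Finset.sum_le_sum fun k hk => card_Lblk ha h1 h2 hS hn k ?_
        have := Finset.mem_range.1 hk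
        omega
    _ = (n + 1) * exp (n * (α * S + ε)) := by
        rw [Finset.sum_const, Finset.card_range, nsmul_eq_mul]; push_cast; ring

lemma summable_aux (K : ℝ) {r : ℝ} (hr0 : 0 < r) (hr1 : r < 1) :
    Summable (fun n : ℕ => K * (((n:ℝ) + 1) * r ^ n)) := by
  apply Summable.mul_left
  have hr : ‖r‖ < 1 := by rw [Real.norm_eq_abs, abs_of_pos hr0]; exact hr1
  have h1 := summable_pow_mul_geometric_of_norm_lt_one 1 hr
  have h2 := summable_geometric_of_norm_lt_one hr
  refine (h1.add h2).congr fun n => ?_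
  ring

open scoped ENNReal in
theorem dimH_le_of_upper {X : Type*} [EMetricSpace X]
    (ha : 0 < α) (h1 : α ≤ β) (h2 : β ≤ γ) {S : ℝ} (hS0 : 0 ≤ S)
    (hS : ∀ x ∈ Set.Icc (0:ℝ) 1, binEntropy x + α * G β γ x ≤ α * S)
    (P : (ℕ → Fin 5) → X) {C : ℝ} (hC : 0 < C)
    (hP : ∀ ω ω' n, ω' ∈ B α β γ ω n → edist (P ω) (P ω') ≤ ENNReal.ofReal (C * exp (-(α * n)))) :
    dimH (Set.range P) ≤ ENNReal.ofReal S := by
  classical
  borelize X
  apply ENNReal.le_of_forall_pos_le_add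
  intro δ hδ _
  have hδ' : (0:ℝ) < δ := hδ
  set ε : ℝ := α * δ / 2 with hεdef
  have hε : 0 < ε := by positivity
  set d : NNReal := Real.toNNReal S + δ with hd
  have hdr : (d : ℝ) = S + δ := by rw [hd]; push_cast; rw [Real.coe_toNNReal _ hS0]
  have hdpos : (0:ℝ) < d := by rw [hdr]; positivity
  have e0 : ENNReal.ofReal S + δ = (d : ENNReal) := by rw [hd]; push_cast; rfl
  rw [e0]
  apply dimH_le_of_hausdorffMeasure_ne_top
  set r : ℝ := exp (-(α * δ / 2)) with hr
  have hr1 : r < 1 := by rw [hr, exp_lt_one_iff]; linarith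
  have hr0 : 0 < r := exp_pos _
  obtain ⟨a, ha_def, ha_sum⟩ : ∃ a : ℕ → ℝ,
      (∀ n, a n = C ^ (d:ℝ) * (((n:ℝ) + 1) * r ^ n)) ∧ Summable a :=
    ⟨_, fun _ => rfl, summable_aux _ hr0 hr1⟩
  have htend : Tendsto (fun i => ∑' k, ENNReal.ofReal (a (k + i))) atTop (𝓝 0) :=
    ENNReal.tendsto_sum_nat_add _ ha_sum.tsum_ofReal_ne_top
  have htend1 : Tendsto (fun i => ∑' k, ENNReal.ofReal (a (k + (i + 1)))) atTop (𝓝 0) :=
    htend.comp (tendsto_add_atTop_nat 1)
  let t : (M : ℕ) → (Σ k : ℕ, (Fin (k + (M + 1)) → Fin 5)) → Set X := fun M x =>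
    P '' {ω | lab α β γ ω (x.1 + (M + 1)) = x.2 ∧ Good α β γ ε ω (x.1 + (M + 1))}
  have hdiam : ∀ M x, Metric.ediam (t M x) ≤
      ENNReal.ofReal (C * exp (-(α * ((x.1 + (M + 1) : ℕ) : ℝ)))) := by
    intro M x
    apply Metric.ediam_le
    rintro _ ⟨ω, hω, rfl⟩ _ ⟨ω', hω', rfl⟩
    exact hP ω ω' _ (hω'.1.trans hω.1.symm)
  have hmain := Measure.hausdorffMeasure_le_liminf_tsum (X := X)
    (ι := fun M : ℕ => Σ k : ℕ, (Fin (k + (M + 1)) → Fin 5)) (d : ℝ) (Set.range P)
    (l := atTop) (fun M => ENNReal.ofReal (C * exp (-(α * (M:ℝ))))) ?_ t ?_ ?_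
  · have hle : ∀ M, ∑' x, Metric.ediam (t M x) ^ (d:ℝ) ≤
        ∑' k, ENNReal.ofReal (a (k + (M + 1))) := by
      intro M
      rw [ENNReal.tsum_sigma']
      refine ENNReal.tsum_le_tsum fun k => ?_
      rw [tsum_fintype]
      set n := k + (M + 1) with hn
      have hn0 : 0 < n := by omega
      calc ∑ L : Fin n → Fin 5, Metric.ediam (t M ⟨k, L⟩) ^ (d:ℝ)
          ≤ ∑ L : Fin n → Fin 5, (if L ∈ Lbl α β γ ε n then
              ENNReal.ofReal ((C * exp (-(α * (n:ℝ)))) ^ (d:ℝ)) else 0) := by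
            refine Finset.sum_le_sum fun L _ => ?_
            split_ifs with hL
            · rw [← ENNReal.ofReal_rpow_of_pos (by positivity)]
              exact ENNReal.rpow_le_rpow (hdiam M ⟨k, L⟩) hdpos.le
            · have : t M ⟨k, L⟩ = ∅ := by
                rw [Set.eq_empty_iff_forall_notMem]
                rintro _ ⟨ω, hω, rfl⟩
                apply hL
                simp only [Lbl, Finset.mem_filter, Finset.mem_univ, true_and]
                exact ⟨ω, hω.2, hω.1⟩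
              rw [this, Metric.ediam_empty, ENNReal.zero_rpow_of_pos hdpos]
        _ = ((Lbl α β γ ε n).card : ENNReal) *
              ENNReal.ofReal ((C * exp (-(α * (n:ℝ)))) ^ (d:ℝ)) := by
            rw [Finset.sum_ite_mem, Finset.univ_inter, Finset.sum_const, nsmul_eq_mul]
        _ ≤ ENNReal.ofReal (a n) := by
            rw [← ENNReal.ofReal_natCast, ← ENNReal.ofReal_mul (by positivity)]
            apply ENNReal.ofReal_le_ofReal
            have h3 := card_Lbl ha h1 h2 hS (ε := ε) hn0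
            have h4 : (C * exp (-(α * (n:ℝ)))) ^ (d:ℝ) =
                C ^ (d:ℝ) * exp (-(α * n) * (S + δ)) := by
              rw [Real.mul_rpow hC.le (exp_pos _).le, ← exp_mul, hdr]
            rw [h4]
            have h5 : r ^ n = exp (-(α * δ / 2) * n) := by
              rw [hr, ← exp_nat_mul]; congr 1; ring
            have h6 : a n = C ^ (d:ℝ) * ((n + 1) * exp (-(α * δ / 2) * n)) := by
              rw [ha_def, h5]
            rw [h6]
            have h7 : exp (n * (α * S + ε)) * exp (-(α * n) * (S + δ)) =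
                exp (-(α * δ / 2) * n) := by
              rw [← exp_add, hεdef]; congr 1; ring
            calc ((Lbl α β γ ε n).card : ℝ) * (C ^ (d:ℝ) * exp (-(α * n) * (S + δ)))
                ≤ ((n + 1) * exp (n * (α * S + ε))) * (C ^ (d:ℝ) * exp (-(α * n) * (S + δ))) := by
                  gcongr
              _ = C ^ (d:ℝ) * ((n + 1) *
                    (exp (n * (α * S + ε)) * exp (-(α * n) * (S + δ)))) := by ring
              _ = _ := by rw [h7]
    have hlim : liminf (fun M => ∑' x, Metric.ediam (t M x) ^ (d:ℝ)) atTop ≤ 0 := by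
      calc liminf (fun M => ∑' x, Metric.ediam (t M x) ^ (d:ℝ)) atTop
          ≤ liminf (fun M => ∑' k, ENNReal.ofReal (a (k + (M + 1)))) atTop :=
            liminf_le_liminf (Eventually.of_forall hle)
        _ = 0 := htend1.liminf_eq
    have : μH[(d:ℝ)] (Set.range P) ≤ 0 := hmain.trans hlim
    exact ne_top_of_le_ne_top ENNReal.zero_ne_top this
  · have h3 : Tendsto (fun M : ℕ => C * exp (-(α * (M:ℝ)))) atTop (𝓝 (C * 0)) := by
      apply Tendsto.const_mul
      apply Real.tendsto_exp_neg_atTop_nhds_zero.comp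
      exact (tendsto_natCast_atTop_atTop).const_mul_atTop ha
    rw [mul_zero] at h3
    have := ENNReal.tendsto_ofReal h3
    rwa [ENNReal.ofReal_zero] at this
  · refine Eventually.of_forall fun M x => (hdiam M x).trans ?_
    apply ENNReal.ofReal_le_ofReal
    gcongr
    omega
  · refine Eventually.of_forall fun M => ?_
    rintro _ ⟨ω, rfl⟩
    obtain ⟨n, hn, -, hg⟩ := exists_good ha h1 h2 hε ω (M + 1)
    obtain ⟨k, rfl⟩ : ∃ k, n = k + (M + 1) := ⟨n - (M + 1), by omega⟩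
    rw [Set.mem_iUnion]
    exact ⟨⟨k, lab α β γ ω (k + (M + 1))⟩, ω, ⟨rfl, hg⟩, rfl⟩

end Pool.Agent.Bar
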